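import Pool.Agent.NH22.DG.Stm

/-!
# DG-2: a binary form modulo a prime, a divisor of prescribed size (helper48)
-/

set_option autoImplicit false

namespace Pool.Agent.NH22.DG.C2

open Pool.Agent.NH22.DG Finset
open Pool.Agent.TH894.NE (box mem_box)


theorem t_CUB : S_CUB := by
  classical
  intro q α β hq hαβ
  have := Fact.mk hq
  by_cases hα : (q : ℤ) ∣ α
  · have hβ : ¬ (q : ℤ) ∣ β := by tauto
    have h0 : ∀ m ∈ (box 2 q).filter
        (fun m : Fin 2 → ℕ => (q : ℤ) ∣ α * (m 1 : ℤ) ^ 3 + β * (m 0 : ℤ) ^ 2), m 0 = 0 := by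
      intro m hm
      rw [mem_filter, mem_box] at hm
      obtain ⟨hm1, hm2⟩ := hm
      have h1 : (q : ℤ) ∣ β * (m 0 : ℤ) ^ 2 := (dvd_add_right (hα.mul_right _)).1 hm2
      have hp : Prime (q : ℤ) := Nat.prime_iff_prime_int.1 hq
      have h2 : (q : ℤ) ∣ (m 0 : ℤ) := by
        rcases hp.dvd_or_dvd h1 with h | h
        · exact absurd h hβ
        · exact hp.dvd_of_dvd_pow h
      have h3 : q ∣ m 0 := by exact_mod_cast h2
      exact Nat.eq_zero_of_dvd_of_lt h3 (hm1 0)
    have h1 := Finset.card_le_mul_card_image_of_maps_to (s := (box 2 q).filter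
        (fun m : Fin 2 → ℕ => (q : ℤ) ∣ α * (m 1 : ℤ) ^ 3 + β * (m 0 : ℤ) ^ 2)) (t := range q)
      (f := fun m => m 1) (fun m hm => by
        rw [mem_filter, mem_box] at hm
        exact mem_range.2 (hm.1 1)) 3 (fun x _ => by
        refine le_trans (Finset.card_le_one.2 ?_) (by norm_num)
        intro a ha b hb
        rw [mem_filter] at ha hb
        funext i
        fin_cases i
        · exact (h0 a ha.1).trans (h0 b hb.1).symm
        · exact ha.2.trans hb.2.symm)
    rwa [card_range] at h1
  · have h1 := Finset.card_le_mul_card_image_of_maps_to (s := (box 2 q).filter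
        (fun m : Fin 2 → ℕ => (q : ℤ) ∣ α * (m 1 : ℤ) ^ 3 + β * (m 0 : ℤ) ^ 2)) (t := range q)
      (f := fun m => m 0) (fun m hm => by
        rw [mem_filter, mem_box] at hm
        exact mem_range.2 (hm.1 0)) 3 (fun x _ => by
        set P : Polynomial (ZMod q) := Polynomial.C (α : ZMod q) * Polynomial.X ^ 3 +
          Polynomial.C ((β : ZMod q) * (x : ZMod q) ^ 2) with hP
        have hα0 : (α : ZMod q) ≠ 0 := by
          rw [Ne, ZMod.intCast_zmod_eq_zero_iff_dvd]
          exact hα
        have hP0 : P ≠ 0 := by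
          intro h
          have h2 := congrArg (fun R : Polynomial (ZMod q) => R.coeff 3) h
          simp only [hP, Polynomial.coeff_add, Polynomial.coeff_C_mul, Polynomial.coeff_X_pow,
            Polynomial.coeff_C, Polynomial.coeff_zero] at h2
          simp at h2
          exact hα0 h2
        have hdeg : P.natDegree ≤ 3 := by
          rw [hP]
          compute_degree
        refine le_trans (Finset.card_le_card_of_injOn (t := P.roots.toFinset)
          (fun m => (m 1 : ZMod q)) ?_ ?_)
          ((Multiset.toFinset_card_le _).trans (P.card_roots'.trans hdeg))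
        · intro m hm
          rw [mem_coe, mem_filter, mem_filter] at hm
          rw [mem_coe, Multiset.mem_toFinset, Polynomial.mem_roots hP0, Polynomial.IsRoot.def, hP]
          obtain ⟨⟨-, h2⟩, h3⟩ := hm
          simp only [Polynomial.eval_add, Polynomial.eval_mul, Polynomial.eval_C,
            Polynomial.eval_pow, Polynomial.eval_X]
          have h4 := (ZMod.intCast_zmod_eq_zero_iff_dvd _ q).2 h2
          push_cast at h4
          rw [← h3]
          linear_combination h4
        · intro a ha b hb hab
          rw [mem_coe, mem_filter, mem_filter, mem_box] at ha hb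
          have h2 : a 1 = b 1 := by
            have h3 := (ZMod.natCast_eq_natCast_iff' _ _ _).1 hab
            rwa [Nat.mod_eq_of_lt (ha.1.1 1), Nat.mod_eq_of_lt (hb.1.1 1)] at h3
          funext i
          fin_cases i
          · exact ha.2.trans hb.2.symm
          · exact h2)
    rwa [card_range] at h1

theorem t_DIV : S_DIV := by
  classical
  intro n X P hn hX hP hXn hp
  have hne : (n.divisors.filter fun d : ℕ => X ≤ d).Nonempty :=
    ⟨n, mem_filter.2 ⟨Nat.mem_divisors_self n (by omega), hXn⟩⟩
  obtain ⟨d, hd, hmin⟩ := Finset.exists_min_image _ (fun d : ℕ => d) hne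
  rw [mem_filter, Nat.mem_divisors] at hd
  obtain ⟨⟨hdn, hn0⟩, hXd⟩ := hd
  refine ⟨d, hdn, hXd, ?_⟩
  by_cases h1 : d = 1
  · rw [h1, Nat.cast_one]
    nlinarith
  · have hpr := Nat.minFac_prime h1
    have hpd := Nat.minFac_dvd d
    obtain ⟨e, he⟩ := hpd
    have hd0 : 0 < d := Nat.pos_of_dvd_of_pos hdn (by omega)
    have he0 : 0 < e := by
      rcases Nat.eq_zero_or_pos e with h | h
      · rw [h, mul_zero] at he
        omega
      · exact h
    have hP1 : (d.minFac : ℝ) ≤ P :=
      hp _ (Nat.mem_primeFactors.2 ⟨hpr, (Nat.minFac_dvd d).trans hdn, by omega⟩)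
    have hlt : (e : ℝ) < X := by
      by_contra h
      push Not at h
      have h2 := hmin e (mem_filter.2 ⟨Nat.mem_divisors.2
        ⟨(Dvd.intro_left _ he.symm).trans hdn, hn0⟩, h⟩)
      have h3 : e < d := by
        have h4 := hpr.two_le
        calc e < 2 * e := by omega
          _ ≤ d.minFac * e := Nat.mul_le_mul_right _ h4
          _ = d := he.symm
      omega
    have h2 : (d : ℝ) = d.minFac * e := by exact_mod_cast he
    rw [h2]
    calc (d.minFac : ℝ) * e ≤ P * X := mul_le_mul hP1 hlt.le (by positivity) (by linarith)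
      _ = X * P := mul_comm _ _

end Pool.Agent.NH22.DG.C2
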