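import Pool.Agent.NH22.DG.Stm

/-!
# Project DG, file C3: few members have an invariant with small denominator
-/

set_option autoImplicit false

namespace Pool.Agent.NH22.DG.C3

open Pool.Agent.NH22.DG Finset
open Pool.Agent.TH894.NE (mean box Per cfd)
open Pool.Agent.Y57.FD (digit change exceptions)

lemma cnt_le_sum {ι : Type} (b : ℕ) (K r N : Fin 2 → ℕ) (f : Fin 2 → ℕ → ℕ) (P : Finset ι)
    (E : (Fin 2 → ℕ) → Prop) (F : ι → (Fin 2 → ℕ) → Prop)
    (h : ∀ m, E m → ∃ p ∈ P, F p m) :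
    cnt b K r N f E ≤ ∑ p ∈ P, cnt b K r N f (F p) := by
  classical
  unfold cnt
  rw [← Nat.cast_sum]
  norm_cast
  refine le_trans (Finset.card_le_card ?_) Finset.card_biUnion_le
  intro S hS
  rw [Finset.mem_filter] at hS
  obtain ⟨p, hp, hF⟩ := h _ hS.2
  rw [Finset.mem_biUnion]
  exact ⟨p, hp, Finset.mem_filter.2 ⟨hS.1, hF⟩⟩

lemma cnt_mono (b : ℕ) (K r N : Fin 2 → ℕ) (f : Fin 2 → ℕ → ℕ)
    (E F : (Fin 2 → ℕ) → Prop) (h : ∀ m, E m → F m) :
    cnt b K r N f E ≤ cnt b K r N f F := by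
  classical
  unfold cnt
  norm_cast
  refine Finset.card_le_card ?_
  intro S hS
  rw [Finset.mem_filter] at hS ⊢
  exact ⟨hS.1, h _ hS.2⟩

/-- the pair `(u, v)` with `u * de = v * nu` -/
lemma pair_exists (m : Fin 2 → ℕ) (V : ℕ) (hV : 1 ≤ V) (h : dj m ≤ V) :
    ∃ u v : ℕ, u ≤ 1728 * V ∧ 1 ≤ v ∧ v ≤ V ∧
      (4 * (u : ℤ) - 6912 * (v : ℤ)) * (m 1 : ℤ) ^ 3 + (27 * (u : ℤ)) * (m 0 : ℤ) ^ 2 = 0 := by
  by_cases hd : de m = 0
  · have h1 : m 1 = 0 := by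
      have : 4 * m 1 ^ 3 = 0 := by unfold de at hd; omega
      have h2 : m 1 ^ 3 = 0 := by omega
      exact pow_eq_zero_iff (by norm_num) |>.1 h2
    have h0 : m 0 = 0 := by
      have : 27 * m 0 ^ 2 = 0 := by unfold de at hd; omega
      have h2 : m 0 ^ 2 = 0 := by omega
      exact pow_eq_zero_iff (by norm_num) |>.1 h2
    refine ⟨0, 1, by omega, le_refl _, hV, ?_⟩
    rw [h1, h0]; norm_num
  · have hg : 0 < Nat.gcd (nu m) (de m) := Nat.gcd_pos_of_pos_right _ (Nat.pos_of_ne_zero hd)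
    obtain ⟨u, hu⟩ : Nat.gcd (nu m) (de m) ∣ nu m := Nat.gcd_dvd_left _ _
    obtain ⟨v, hv⟩ : Nat.gcd (nu m) (de m) ∣ de m := Nat.gcd_dvd_right _ _
    set g := Nat.gcd (nu m) (de m) with hgdef
    have hdj : dj m = v := by
      unfold dj
      rw [← hgdef, hv]
      exact Nat.mul_div_cancel_left v hg
    have hv1 : 1 ≤ v := by
      rcases Nat.eq_zero_or_pos v with h0 | h0
      · exact absurd (by rw [hv, h0, mul_zero]) hd
      · exact h0
    have hle : nu m ≤ 1728 * de m := by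
      unfold nu de; omega
    have huv : u ≤ 1728 * v := by
      have h1 : g * u ≤ g * (1728 * v) := by
        calc g * u = nu m := hu.symm
          _ ≤ 1728 * de m := hle
          _ = g * (1728 * v) := by rw [hv]; ring
      exact Nat.le_of_mul_le_mul_left h1 hg
    refine ⟨u, v, ?_, hv1, by omega, ?_⟩
    · have : v ≤ V := by omega
      omega
    · have h1 : u * de m = v * nu m := by
        rw [hv, hu]; ring
      have h2 : (u : ℤ) * (4 * (m 1 : ℤ) ^ 3 + 27 * (m 0 : ℤ) ^ 2) = (v : ℤ) * (6912 * (m 1 : ℤ) ^ 3) := by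
        have := congrArg (fun t : ℕ => (t : ℤ)) h1
        simp only [nu, de] at this
        push_cast at this
        exact this
      linear_combination h2

lemma mod_dvd (q : ℕ) (α β : ℤ) (m : Fin 2 → ℕ) (h : α * (m 1 : ℤ) ^ 3 + β * (m 0 : ℤ) ^ 2 = 0) :
    (q : ℤ) ∣ α * ((m 1 % q : ℕ) : ℤ) ^ 3 + β * ((m 0 % q : ℕ) : ℤ) ^ 2 := by
  rw [← Int.modEq_zero_iff_dvd]
  have h1 : ((m 1 % q : ℕ) : ℤ) ≡ (m 1 : ℤ) [ZMOD q] := by
    push_cast
    exact Int.mod_modEq _ _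
  have h0 : ((m 0 % q : ℕ) : ℤ) ≡ (m 0 : ℤ) [ZMOD q] := by
    push_cast
    exact Int.mod_modEq _ _
  calc α * ((m 1 % q : ℕ) : ℤ) ^ 3 + β * ((m 0 % q : ℕ) : ℤ) ^ 2
      ≡ α * (m 1 : ℤ) ^ 3 + β * (m 0 : ℤ) ^ 2 [ZMOD q] :=
        Int.ModEq.add (Int.ModEq.mul_left _ (h1.pow 3)) (Int.ModEq.mul_left _ (h0.pow 2))
    _ = 0 := h

lemma not_both (q V u v : ℕ) (hq : 46656 * V < q) (hu : u ≤ 1728 * V) (hv1 : 1 ≤ v) (hv : v ≤ V) :
    ¬ (q : ℤ) ∣ (4 * (u : ℤ) - 6912 * (v : ℤ)) ∨ ¬ (q : ℤ) ∣ (27 * (u : ℤ)) := by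
  by_cases h0 : u = 0
  · left
    intro hd
    have : (4 * (u : ℤ) - 6912 * (v : ℤ)) = -((6912 * v : ℕ) : ℤ) := by
      rw [h0]; push_cast; ring
    rw [this, Int.dvd_neg, Int.natCast_dvd_natCast] at hd
    have := Nat.le_of_dvd (by omega) hd
    omega
  · right
    intro hd
    have h2 : (27 * (u : ℤ)) = ((27 * u : ℕ) : ℤ) := by push_cast; ring
    rw [h2, Int.natCast_dvd_natCast] at hd
    have := Nat.le_of_dvd (by omega) hd
    omega

theorem t_VAL (hC : S_CNT) (hU : S_CUB) : S_VAL := by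
  intro b hb
  obtain ⟨c, hc, y₁, hy₁⟩ := hC b (1 / 8) 2 hb (by norm_num) (by norm_num)
  refine ⟨c, hc, max y₁ (max (2 * (b * b)) (12103 ^ 8)), ?_⟩
  intro K r N f y hy hF
  have hy1 : y₁ ≤ y := le_trans (le_max_left _ _) hy
  have hy2 : 2 * (b * b) ≤ y := le_trans (le_max_left _ _) (le_trans (le_max_right _ _) hy)
  have hy3 : 12103 ^ 8 ≤ y := le_trans (le_max_right _ _) (le_trans (le_max_right _ _) hy)
  have hyR : ((12103 : ℝ)) ^ 8 ≤ (y : ℝ) := by exact_mod_cast hy3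
  have hy0 : (0 : ℝ) < (y : ℝ) := lt_of_lt_of_le (by positivity) hyR
  have hyge1 : (1 : ℝ) ≤ (y : ℝ) := le_trans (by norm_num) hyR
  -- the eighth root
  set t : ℝ := (y : ℝ) ^ (1 / 8 : ℝ) with ht
  have ht0 : 0 < t := Real.rpow_pos_of_pos hy0 _
  have htp : ∀ n : ℕ, t ^ n = (y : ℝ) ^ ((n : ℝ) / 8) := by
    intro n
    rw [ht, ← Real.rpow_natCast, ← Real.rpow_mul hy0.le]
    congr 1; ring
  have ht8 : t ^ 8 = y := by
    rw [htp 8]; norm_num
  have htge : (12103 : ℝ) ≤ t := by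
    by_contra hlt
    push Not at hlt
    have : t ^ 8 < (12103 : ℝ) ^ 8 := pow_lt_pow_left₀ hlt ht0.le (by norm_num)
    rw [ht8] at this
    linarith
  have ht1 : 1 ≤ t := by linarith
  set V : ℕ := ⌊t⌋₊ with hVdef
  have hV1 : 1 ≤ V := Nat.le_floor (by simpa using ht1)
  have hVt : (V : ℝ) ≤ t := Nat.floor_le ht0.le
  -- the prime
  obtain ⟨q, hq, hq1, hq2⟩ := Nat.exists_prime_lt_and_le_two_mul (y / 2) (by omega)
  have hqy : q ≤ y := by omega
  have hqy2 : y < 2 * q := by omega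
  have hqR : (y : ℝ) < 2 * (q : ℝ) := by exact_mod_cast hqy2
  have hq0 : (0 : ℝ) < (q : ℝ) := by linarith
  have hqb : ∀ p : ℕ, p.Prime → p ∣ q → b * b < p := by
    intro p hp hpq
    have : p = q := (Nat.prime_dvd_prime_iff_eq hp hq).1 hpq
    rw [this]; omega
  have hqV : 46656 * V < q := by
    have h1 : (46656 : ℝ) * (V : ℝ) < q := by
      have h2 : (46656 : ℝ) * V ≤ 46656 * t := by nlinarith
      have h3 : (2 : ℝ) * (46656 * t) ≤ t ^ 8 := by
        have h4 : (12103 : ℝ) ^ 7 ≤ t ^ 7 := pow_le_pow_left₀ (by norm_num) htge 7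
        have h5 : t ^ 8 = t ^ 7 * t := by ring
        rw [h5]
        have h6 : (2 : ℝ) * 46656 ≤ t ^ 7 := le_trans (by norm_num) h4
        nlinarith
      rw [ht8] at h3
      linarith
    exact_mod_cast h1
  -- the classes
  set P : Finset (ℕ × ℕ) := range (1728 * V + 1) ×ˢ Icc 1 V with hP
  let Z : ℕ × ℕ → Finset (Fin 2 → ℕ) := fun p => (box 2 q).filter
    (fun m : Fin 2 → ℕ => (q : ℤ) ∣ (4 * (p.1 : ℤ) - 6912 * (p.2 : ℤ)) * (m 1 : ℤ) ^ 3 + (27 * (p.1 : ℤ)) * (m 0 : ℤ) ^ 2)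
  have hsum : cnt b K r N f (fun m => (dj m : ℝ) < t) ≤
      ∑ p ∈ P, cnt b K r N f (fun m => (fun i => m i % q) ∈ Z p) := by
    refine cnt_le_sum b K r N f P _ _ ?_
    intro m hm
    have hdV : dj m ≤ V := Nat.le_floor hm.le
    obtain ⟨u, v, hu, hv1, hv, he⟩ := pair_exists m V hV1 hdV
    refine ⟨(u, v), ?_, ?_⟩
    · rw [hP, Finset.mem_product]
      exact ⟨Finset.mem_range.2 (by simpa using Nat.lt_succ_of_le hu), Finset.mem_Icc.2 ⟨hv1, hv⟩⟩
    · refine Finset.mem_filter.2 ⟨?_, ?_⟩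
      · rw [Pool.Agent.TH894.NE.mem_box]
        intro i
        exact Nat.mod_lt _ hq.pos
      · exact mod_dvd q _ _ m he
  have htot : 0 ≤ tot K r := by
    unfold tot
    exact Finset.prod_nonneg (fun i _ => by positivity)
  have hterm : ∀ p ∈ P, cnt b K r N f (fun m => (fun i => m i % q) ∈ Z p) ≤ 7 * t / t ^ 8 * tot K r := by
    intro p hp
    rw [hP, Finset.mem_product, Finset.mem_range, Finset.mem_Icc] at hp
    have h1 := hy₁ K r N f y hy1 hF q hq.one_le hqy hqb (Z p) (Finset.filter_subset _ _)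
    refine le_trans h1 (mul_le_mul_of_nonneg_right ?_ htot)
    have h2 : (Z p).card ≤ 3 * q := hU q _ _ hq (not_both q V p.1 p.2 hqV (by omega) hp.2.1 hp.2.2)
    have h2R : ((Z p).card : ℝ) ≤ 3 * (q : ℝ) := by exact_mod_cast h2
    have h3 : ((Z p).card : ℝ) / (q : ℝ) ^ 2 ≤ 6 / t ^ 8 := by
      rw [ht8, div_le_div_iff₀ (by positivity) hy0]
      nlinarith [mul_pos hq0 hq0, mul_le_mul_of_nonneg_right h2R hy0.le]
    have h4 : (y : ℝ) ^ (-2 : ℝ) ≤ t / t ^ 8 := by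
      have h5 : (y : ℝ) ^ (-2 : ℝ) = 1 / (t ^ 8 * t ^ 8) := by
        rw [ht8, Real.rpow_neg hy0.le, one_div]
        congr 1
        rw [show (2 : ℝ) = ((2 : ℕ) : ℝ) by norm_num, Real.rpow_natCast]
        ring
      rw [h5, div_le_div_iff₀ (by positivity) (by positivity)]
      have h6 : 1 ≤ t ^ 8 := one_le_pow₀ ht1
      nlinarith [mul_le_mul_of_nonneg_left h6 (by positivity : (0 : ℝ) ≤ t ^ 8), mul_nonneg (sub_nonneg.2 ht1) (by positivity : (0 : ℝ) ≤ t ^ 8 * t ^ 8)]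
    calc ((Z p).card : ℝ) / (q : ℝ) ^ 2 * t + (y : ℝ) ^ (-2 : ℝ)
        ≤ 6 / t ^ 8 * t + t / t ^ 8 := add_le_add (mul_le_mul_of_nonneg_right h3 ht0.le) h4
      _ = 7 * t / t ^ 8 := by ring
  have hcard : (P.card : ℝ) ≤ 1729 * t ^ 2 := by
    rw [hP, Finset.card_product, Finset.card_range, Nat.card_Icc]
    have h1 : V + 1 - 1 = V := by omega
    rw [h1]
    push_cast
    have hV1R : (1 : ℝ) ≤ V := by exact_mod_cast hV1
    nlinarith
  refine le_trans hsum (le_trans (Finset.sum_le_sum hterm) ?_)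
  rw [Finset.sum_const, nsmul_eq_mul]
  have hfin : (y : ℝ) ^ (-(1 / 2 : ℝ)) = 1 / t ^ 4 := by
    rw [Real.rpow_neg hy0.le, one_div, htp 4]
    norm_num
  rw [hfin, ← mul_assoc]
  refine mul_le_mul_of_nonneg_right ?_ htot
  calc (P.card : ℝ) * (7 * t / t ^ 8) ≤ (1729 * t ^ 2) * (7 * t / t ^ 8) :=
        mul_le_mul_of_nonneg_right hcard (by positivity)
    _ = 12103 * t ^ 3 / t ^ 8 := by ring
    _ ≤ 1 / t ^ 4 := by
        rw [div_le_div_iff₀ (by positivity) (by positivity)]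
        have h7 : 0 < t ^ 7 := by positivity
        nlinarith

end Pool.Agent.NH22.DG.C3
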