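import Pool.Agent.NH22.DG.Stm

/-! Project DG, part 4: square roots modulo `d` -/

set_option autoImplicit false

namespace Pool.Agent.NH22.DG.C4

open Pool.Agent.NH22.DG Finset

theorem pow_dvd_or {p : ℤ} (hp : Prime p) (h : ℕ) : ∀ a b : ℤ, p ^ (2 * h - 1) ∣ a * b →
    p ^ h ∣ a ∨ p ^ h ∣ b := by
  induction h with
  | zero => intro a b _; left; simp
  | succ h ih =>
    have key : ∀ a b : ℤ, p ^ (2 * h + 1) ∣ a * b → p ^ h ∣ a → p ^ (h + 1) ∣ a ∨ p ^ (h + 1) ∣ b := by
      rintro a b hab ⟨a', rfl⟩
      have h1 : p ^ (h + 1) ∣ a' * b := by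
        have h2 : p ^ h * p ^ (h + 1) ∣ p ^ h * (a' * b) := by
          rw [← pow_add, ← mul_assoc]
          convert hab using 2
          omega
        exact (mul_dvd_mul_iff_left (pow_ne_zero _ hp.ne_zero)).1 h2
      by_cases h3 : p ∣ a'
      · left
        rw [pow_succ]
        exact mul_dvd_mul_left _ h3
      · right
        exact hp.pow_dvd_of_dvd_mul_left _ h3 h1
    intro a b hab
    have hab' : p ^ (2 * h + 1) ∣ a * b := by
      convert hab using 2
      omega
    have h4 : p ^ (2 * h - 1) ∣ a * b := (pow_dvd_pow p (by omega)).trans hab'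
    rcases ih a b h4 with h5 | h5
    · exact key a b hab' h5
    · rcases key b a (by rw [mul_comm b a]; exact hab') h5 with h6 | h6
      · exact Or.inr h6
      · exact Or.inl h6

theorem t_SQ : S_SQ := by
  classical
  intro d u hd _
  have hd0 : d ≠ 0 := by omega
  set V := (range d).filter (fun v : ℕ => (d : ℤ) ∣ (v : ℤ) ^ 2 - u) with hV
  rcases V.eq_empty_or_nonempty with hemp | ⟨v0, hv0⟩
  · rw [hemp]
    simp only [card_empty, Nat.cast_zero]
    positivity
  set hh : ℕ → ℕ := fun p => (d.factorization p + 1) / 2 with hhh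
  set e : ℕ := ∏ p ∈ d.primeFactors, p ^ hh p with he
  have hprod : ∏ p ∈ d.primeFactors, p ^ d.factorization p = d :=
    Nat.prod_factorization_pow_eq_self hd0
  have hfac : ∀ p ∈ d.primeFactors, 1 ≤ d.factorization p := by
    intro p hp
    exact (Nat.prime_of_mem_primeFactors hp).factorization_pos_of_dvd hd0
      (Nat.dvd_of_mem_primeFactors hp)
  have hed : e ∣ d := by
    conv_rhs => rw [← hprod]
    apply Finset.prod_dvd_prod_of_dvd
    intro p hp
    apply pow_dvd_pow
    have := hfac p hp
    show (d.factorization p + 1) / 2 ≤ _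
    omega
  have hde : d ∣ e ^ 2 := by
    conv_lhs => rw [← hprod]
    rw [he, ← Finset.prod_pow]
    apply Finset.prod_dvd_prod_of_dvd
    intro p hp
    rw [← pow_mul]
    apply pow_dvd_pow
    show _ ≤ (d.factorization p + 1) / 2 * 2
    omega
  have he0 : e ≠ 0 := fun h => hd0 (by
    have := hed
    rw [h] at this
    exact Nat.eq_zero_of_zero_dvd this)
  have hsq : d ≤ e ^ 2 := Nat.le_of_dvd (by positivity) hde
  -- the key property
  have hkey : ∀ v ∈ V, ∀ p ∈ d.primeFactors,
      ((p : ℤ) ^ hh p ∣ (v : ℤ) - v0) ∨ ((p : ℤ) ^ hh p ∣ (v : ℤ) + v0) := by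
    intro v hv p hp
    have hpp : Prime (p : ℤ) := Nat.prime_iff_prime_int.1 (Nat.prime_of_mem_primeFactors hp)
    apply pow_dvd_or hpp
    have h1 : (d : ℤ) ∣ ((v : ℤ) - v0) * ((v : ℤ) + v0) := by
      have h2 := (mem_filter.1 hv).2
      have h3 := (mem_filter.1 hv0).2
      have h5 : ((v : ℤ) - v0) * ((v : ℤ) + v0) = ((v : ℤ) ^ 2 - u) - ((v0 : ℤ) ^ 2 - u) := by ring
      rw [h5]
      exact dvd_sub h2 h3
    refine dvd_trans ?_ h1
    have h4 : (p : ℤ) ^ d.factorization p ∣ (d : ℤ) := by
      exact_mod_cast Nat.ordProj_dvd d p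
    refine (pow_dvd_pow _ ?_).trans h4
    have := hfac p hp
    show 2 * ((d.factorization p + 1) / 2) - 1 ≤ _
    omega
  -- the injection
  have hcard : V.card ≤ (d.primeFactors.powerset ×ˢ range (d / e)).card := by
    apply Finset.card_le_card_of_injOn (fun v : ℕ =>
      (d.primeFactors.filter (fun p : ℕ => (p : ℤ) ^ hh p ∣ (v : ℤ) - v0), v / e))
    · intro v hv
      have hv' : v ∈ V := hv
      have hvd : v < d := mem_range.1 (mem_filter.1 hv').1
      simp only [coe_product, Set.mem_prod, mem_coe, mem_powerset, mem_range]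
      refine ⟨filter_subset _ _, ?_⟩
      exact Nat.div_lt_div_of_lt_of_dvd hed hvd
    · intro v hv w hw hvw
      have hv' : v ∈ V := hv
      have hw' : w ∈ V := hw
      simp only [Prod.mk.injEq] at hvw
      obtain ⟨h1, h2⟩ := hvw
      have h3 : (e : ℤ) ∣ (v : ℤ) - w := by
        rw [he]
        push_cast
        apply Finset.prod_dvd_of_coprime
        · intro p hp q hq hpq
          show IsCoprime ((p : ℤ) ^ hh p) ((q : ℤ) ^ hh q)
          apply IsCoprime.pow
          exact Nat.isCoprime_iff_coprime.2 ((Nat.coprime_primes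
            (Nat.prime_of_mem_primeFactors hp) (Nat.prime_of_mem_primeFactors hq)).2 hpq)
        · intro p hp
          by_cases h4 : (p : ℤ) ^ hh p ∣ (v : ℤ) - v0
          · have h5 : p ∈ d.primeFactors.filter (fun p : ℕ => (p : ℤ) ^ hh p ∣ (w : ℤ) - v0) := by
              rw [← h1]
              exact mem_filter.2 ⟨hp, h4⟩
            have h6 := (mem_filter.1 h5).2
            have := dvd_sub h4 h6
            convert this using 1
            ring
          · have h5 : ¬ (p : ℤ) ^ hh p ∣ (w : ℤ) - v0 := by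
              intro h6
              have : p ∈ d.primeFactors.filter (fun p : ℕ => (p : ℤ) ^ hh p ∣ (v : ℤ) - v0) := by
                rw [h1]
                exact mem_filter.2 ⟨hp, h6⟩
              exact h4 (mem_filter.1 this).2
            have h6 := (hkey v hv' p hp).resolve_left h4
            have h7 := (hkey w hw' p hp).resolve_left h5
            have := dvd_sub h6 h7
            convert this using 1
            ring
      have h4 : v % e = w % e := by
        have h5 : (w : ℤ) % e = (v : ℤ) % e := (Int.modEq_iff_dvd).2 h3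
        exact_mod_cast h5.symm
      rw [← Nat.div_add_mod v e, ← Nat.div_add_mod w e, h4]
      rw [h2]
  rw [card_product, card_powerset, card_range] at hcard
  have h5 : ((d / e : ℕ) : ℝ) ≤ Real.sqrt d := by
    rw [Nat.cast_div hed (by exact_mod_cast he0)]
    have he1 : (0 : ℝ) < e := by exact_mod_cast Nat.pos_of_ne_zero he0
    rw [div_le_iff₀ he1]
    have h6 : Real.sqrt d ≤ e := by
      rw [Real.sqrt_le_left he1.le]
      exact_mod_cast hsq
    calc (d : ℝ) = Real.sqrt d * Real.sqrt d := (Real.mul_self_sqrt (Nat.cast_nonneg d)).symm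
      _ ≤ Real.sqrt d * e := mul_le_mul_of_nonneg_left h6 (Real.sqrt_nonneg _)
  calc ((V.card : ℕ) : ℝ) ≤ ((2 ^ d.primeFactors.card * (d / e) : ℕ) : ℝ) := by exact_mod_cast hcard
    _ = 2 ^ d.primeFactors.card * ((d / e : ℕ) : ℝ) := by push_cast; ring
    _ ≤ 2 ^ d.primeFactors.card * Real.sqrt d := by gcongr

end Pool.Agent.NH22.DG.C4
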