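import Pool.Agent.NH22.DG.Stm

/-!
# Project DG: the number of the pairs modulo `d` for which the discriminant is divisible by `d`
-/

set_option autoImplicit false

namespace Pool.Agent.NH22.DG.C5

open Finset
open Pool.Agent.NH22.DG
open Pool.Agent.TH894.NE (box mem_box)

theorem om_bound (ε : ℝ) (hε : 0 < ε) : ∃ C : ℝ, 0 ≤ C ∧ ∀ d : ℕ, 1 ≤ d →
    (2 : ℝ) ^ d.primeFactors.card ≤ C * (d : ℝ) ^ ε := by
  set W : ℕ := ⌈(2 : ℝ) ^ (1 / ε)⌉₊ with hW
  refine ⟨2 ^ (W + 1), by positivity, fun d hd => ?_⟩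
  have h1 : ∀ p ∈ d.primeFactors, (2 : ℝ) ≤ (if p ≤ W then 2 else 1) * (p : ℝ) ^ ε := by
    intro p hp
    have hp1 : (1 : ℝ) ≤ p := by exact_mod_cast (Nat.prime_of_mem_primeFactors hp).one_le
    split_ifs with h
    · have := Real.one_le_rpow hp1 hε.le
      linarith
    · rw [one_mul]
      have h2 : (2 : ℝ) ^ (1 / ε) ≤ p := by
        refine (Nat.le_ceil _).trans ?_
        exact_mod_cast (not_le.1 h).le
      calc (2 : ℝ) = ((2 : ℝ) ^ (1 / ε)) ^ ε := by
            rw [← Real.rpow_mul (by norm_num), one_div_mul_cancel hε.ne', Real.rpow_one]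
        _ ≤ (p : ℝ) ^ ε := Real.rpow_le_rpow (by positivity) h2 hε.le
  have h2 : (2 : ℝ) ^ d.primeFactors.card ≤
      ∏ p ∈ d.primeFactors, ((if p ≤ W then (2 : ℝ) else 1) * (p : ℝ) ^ ε) := by
    rw [← Finset.prod_const]
    exact Finset.prod_le_prod (fun _ _ => by norm_num) h1
  refine h2.trans ?_
  rw [Finset.prod_mul_distrib]
  refine mul_le_mul ?_ ?_ (Finset.prod_nonneg fun _ _ => by positivity) (by positivity)
  · rw [← Finset.prod_filter, Finset.prod_const]
    refine pow_le_pow_right₀ (by norm_num) ?_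
    calc (d.primeFactors.filter (fun p => p ≤ W)).card ≤ (range (W + 1)).card :=
          Finset.card_le_card fun p hp => Finset.mem_range.2 (by
            have := (Finset.mem_filter.1 hp).2
            omega)
      _ = W + 1 := Finset.card_range _
  · rw [Real.finsetProd_rpow _ _ fun p _ => by positivity]
    refine Real.rpow_le_rpow (Finset.prod_nonneg fun _ _ => by positivity) ?_ hε.le
    have := Nat.le_of_dvd (by omega) (Nat.prod_primeFactors_dvd d)
    rw [← Nat.cast_prod]
    exact_mod_cast this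

theorem t_SOL (hQ : S_SQ) : S_SOL := by
  intro ε hε
  obtain ⟨C, hC0, hC⟩ := om_bound ε hε
  refine ⟨C, hC0, fun d hd hd6 => ?_⟩
  have hodd : Odd d := by
    have h2 : Nat.Coprime d 2 := Nat.Coprime.coprime_dvd_right (by norm_num : 2 ∣ 6) hd6
    exact (Nat.coprime_two_right).1 h2
  have h27 : Nat.Coprime 27 d := by
    have h3 : Nat.Coprime d 3 := Nat.Coprime.coprime_dvd_right (by norm_num : 3 ∣ 6) hd6
    have := Nat.Coprime.pow_left 3 h3.symm
    simpa using this
  obtain ⟨t, s, hts⟩ := Nat.isCoprime_iff_coprime.2 h27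
  have hfib : ∀ a ∈ range d,
      ((((box 2 d).filter (fun m : Fin 2 → ℕ => d ∣ de m)).filter (fun m => m 1 = a)).card : ℝ) ≤
        2 ^ d.primeFactors.card * Real.sqrt d := by
    intro a _
    refine le_trans ?_ (hQ d (-4 * (a : ℤ) ^ 3 * t) hd hodd)
    refine Nat.cast_le.2 (Finset.card_le_card_of_injOn (fun m => m 0) ?_ ?_)
    · intro m hm
      rw [mem_coe, mem_filter, mem_filter, mem_box] at hm
      obtain ⟨⟨h1, h2⟩, h3⟩ := hm
      rw [mem_coe, mem_filter, mem_range]
      refine ⟨h1 0, ?_⟩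
      have h4 : (d : ℤ) ∣ 4 * (a : ℤ) ^ 3 + 27 * (m 0 : ℤ) ^ 2 := by
        have := Int.natCast_dvd_natCast.2 h2
        unfold de at this
        rw [h3] at this
        push_cast at this
        exact this
      have h5 : ((m 0 : ℤ)) ^ 2 - -4 * (a : ℤ) ^ 3 * t =
          t * (4 * (a : ℤ) ^ 3 + 27 * (m 0 : ℤ) ^ 2) + d * (s * (m 0 : ℤ) ^ 2) := by
        have h6 : t * 27 + s * d = 1 := by exact_mod_cast hts
        linear_combination (-(m 0 : ℤ) ^ 2) * h6
      show (d : ℤ) ∣ ((m 0 : ℤ)) ^ 2 - -4 * (a : ℤ) ^ 3 * t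
      rw [h5]
      exact dvd_add (Dvd.dvd.mul_left h4 t) (dvd_mul_right _ _)
    · intro m hm m' hm' h
      rw [mem_coe, mem_filter] at hm hm'
      funext i
      fin_cases i
      · exact h
      · exact hm.2.trans hm'.2.symm
  have hsum : ((((box 2 d).filter (fun m : Fin 2 → ℕ => d ∣ de m)).card : ℕ) : ℝ) ≤
      d * (2 ^ d.primeFactors.card * Real.sqrt d) := by
    rw [Finset.card_eq_sum_card_fiberwise (f := fun m : Fin 2 → ℕ => m 1) (t := range d) (by
      intro m hm
      rw [mem_coe, mem_filter, mem_box] at hm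
      rw [mem_coe, mem_range]
      exact hm.1 1)]
    push_cast
    refine (Finset.sum_le_sum hfib).trans ?_
    rw [Finset.sum_const, Finset.card_range, nsmul_eq_mul]
  refine hsum.trans ?_
  have hd0 : (0 : ℝ) < d := by exact_mod_cast hd
  calc (d : ℝ) * (2 ^ d.primeFactors.card * Real.sqrt d) ≤ d * (C * (d : ℝ) ^ ε * Real.sqrt d) := by
        gcongr
        exact hC d hd
    _ = C * (d : ℝ) ^ (3 / 2 + ε) := by
        rw [Real.sqrt_eq_rpow, show (3 / 2 + ε : ℝ) = 1 + ε + 1 / 2 by ring, Real.rpow_add hd0,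
          Real.rpow_add hd0, Real.rpow_one]
        ring

end Pool.Agent.NH22.DG.C5
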