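import Pool.Agent.NH22.DG.Stm

/-!
# Integers with small radical
-/

set_option autoImplicit false

namespace Pool.Agent.NH22.DG.C6

open Pool.Agent.NH22.DG Finset

/-- the factor of a prime -/
noncomputable def cp (ε : ℝ) (p : ℕ) : ℝ := 1 / ((p : ℝ) ^ ε - 1)

theorem geom_le {ε : ℝ} (hε : 0 < ε) {p : ℕ} (hp : 2 ≤ p) (K : ℕ) :
    ∑ k ∈ Icc 1 K, ((p : ℝ) ^ (-(ε * k))) ≤ cp ε p := by
  have hp1 : (1 : ℝ) < p := by exact_mod_cast hp
  have hx : 1 < (p : ℝ) ^ ε := Real.one_lt_rpow hp1 hε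
  set x : ℝ := ((p : ℝ) ^ ε)⁻¹ with hxd
  have hx0 : 0 < x := by positivity
  have hx1 : x < 1 := inv_lt_one_of_one_lt₀ hx
  have e : ∀ k : ℕ, (p : ℝ) ^ (-(ε * k)) = x ^ k := by
    intro k
    rw [Real.rpow_neg (by positivity), Real.rpow_mul (by positivity), Real.rpow_natCast, hxd, inv_pow]
  have h1 : ∑ k ∈ Icc 1 K, ((p : ℝ) ^ (-(ε * k))) = ∑ k ∈ range K, x ^ (k + 1) := by
    rw [Finset.sum_congr rfl fun k _ => e k, Finset.range_eq_Ico, Finset.sum_Ico_add' (fun k => x ^ k) 0 K 1]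
    rfl
  rw [h1]
  have h2 : ∑ k ∈ range K, x ^ (k + 1) = x * ∑ k ∈ range K, x ^ k := by
    rw [Finset.mul_sum]
    exact Finset.sum_congr rfl fun k _ => by rw [pow_succ']
  have h3 : ∑ k ∈ range K, x ^ k ≤ (1 - x)⁻¹ := by
    have := (summable_geometric_of_lt_one hx0.le hx1).sum_le_tsum (range K) (fun i _ => by positivity)
    rwa [tsum_geometric_of_lt_one hx0.le hx1] at this
  rw [h2, cp]
  calc x * ∑ k ∈ range K, x ^ k ≤ x * (1 - x)⁻¹ := mul_le_mul_of_nonneg_left h3 hx0.le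
    _ = 1 / ((p : ℝ) ^ ε - 1) := by
      have hne : (p : ℝ) ^ ε ≠ 0 := by positivity
      have hne2 : (p : ℝ) ^ ε - 1 ≠ 0 := by linarith
      rw [hxd, ← div_eq_mul_inv, div_eq_div_iff (by rw [sub_ne_zero]; intro h; rw [← hxd] at h; linarith) hne2]
      field_simp

theorem sum_le {ε : ℝ} (hε : 0 < ε) (X : ℕ) (S : Finset ℕ) (hS : ∀ p ∈ S, p.Prime) :
    ∑ d ∈ (Icc 1 X).filter (fun d : ℕ => d.primeFactors = S), (d : ℝ) ^ (-ε) ≤ ∏ p ∈ S, cp ε p := by
  classical
  set A := (Icc 1 X).filter (fun d : ℕ => d.primeFactors = S) with hA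
  have h0 : ∏ p ∈ S, ∑ k ∈ Icc 1 (Nat.log 2 X), ((p : ℝ) ^ (-(ε * (k : ℕ)))) ≤ ∏ p ∈ S, cp ε p := by
    refine Finset.prod_le_prod (fun p hp => ?_) fun p hp => geom_le hε (hS p hp).two_le _
    exact Finset.sum_nonneg fun k _ => by positivity
  refine le_trans ?_ h0
  rw [Finset.prod_sum]
  let φ : ℕ → ∀ p ∈ S, ℕ := fun d p _ => d.factorization p
  have hinj : Set.InjOn φ A := by
    intro n hn n' hn' h
    rw [Finset.mem_coe, hA, Finset.mem_filter, Finset.mem_Icc] at hn hn'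
    refine Nat.eq_of_factorization_eq (by omega) (by omega) fun p => ?_
    by_cases hp : p ∈ S
    · exact congrFun (congrFun h p) hp
    · have h1 : n.factorization p = 0 := by
        rw [← Finsupp.notMem_support_iff, Nat.support_factorization, hn.2]; exact hp
      have h2 : n'.factorization p = 0 := by
        rw [← Finsupp.notMem_support_iff, Nat.support_factorization, hn'.2]; exact hp
      rw [h1, h2]
  have hval : ∀ d ∈ A, (d : ℝ) ^ (-ε) = ∏ x ∈ S.attach, ((x.1 : ℝ) ^ (-(ε * ((φ d x.1 x.2 : ℕ) : ℝ)))) := by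
    intro d hd
    rw [hA, Finset.mem_filter, Finset.mem_Icc] at hd
    have hd0 : d ≠ 0 := by omega
    have e1 : (d : ℝ) = ∏ p ∈ S, (p : ℝ) ^ (d.factorization p) := by
      have := Nat.prod_factorization_pow_eq_self hd0
      rw [Finsupp.prod, Nat.support_factorization, hd.2] at this
      have h2 : ((∏ p ∈ S, p ^ d.factorization p : ℕ) : ℝ) = (d : ℝ) := by rw [this]
      rw [← h2]
      push_cast
      rfl
    conv_lhs => rw [e1]
    rw [← Real.finsetProd_rpow _ _ (fun p _ => by positivity), ← Finset.prod_attach]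
    refine Finset.prod_congr rfl fun x _ => ?_
    rw [← Real.rpow_natCast, ← Real.rpow_mul (by positivity)]
    congr 1
    ring
  calc ∑ d ∈ A, (d : ℝ) ^ (-ε)
      = ∑ d ∈ A, ∏ x ∈ S.attach, ((x.1 : ℝ) ^ (-(ε * ((φ d x.1 x.2 : ℕ) : ℝ)))) :=
        Finset.sum_congr rfl hval
    _ = ∑ g ∈ A.image φ, ∏ x ∈ S.attach, ((x.1 : ℝ) ^ (-(ε * ((g x.1 x.2 : ℕ) : ℝ)))) := by
        rw [Finset.sum_image hinj]
    _ ≤ _ := by
        refine Finset.sum_le_sum_of_subset_of_nonneg ?_ fun g _ _ => Finset.prod_nonneg fun x _ => by positivity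
        intro g hg
        obtain ⟨d, hd, rfl⟩ := Finset.mem_image.1 hg
        rw [hA, Finset.mem_filter, Finset.mem_Icc] at hd
        rw [Finset.mem_pi]
        intro p hp
        rw [Finset.mem_Icc]
        constructor
        · have : p ∈ d.primeFactors := by rw [hd.2]; exact hp
          rw [← Nat.support_factorization] at this
          exact Nat.one_le_iff_ne_zero.2 (Finsupp.mem_support_iff.1 this)
        · refine Nat.le_log_of_pow_le (by norm_num) ?_
          calc 2 ^ d.factorization p ≤ p ^ d.factorization p := Nat.pow_le_pow_left (hS p hp).two_le _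
            _ ≤ d := Nat.ordProj_le p (by omega)
            _ ≤ X := hd.1.2

theorem card_le {ε : ℝ} (hε : 0 < ε) (X : ℕ) (S : Finset ℕ) (hS : ∀ p ∈ S, p.Prime) :
    ((((Icc 1 X).filter (fun d : ℕ => d.primeFactors = S)).card : ℕ) : ℝ) ≤
      (∏ p ∈ S, cp ε p) * (X : ℝ) ^ ε := by
  calc ((((Icc 1 X).filter (fun d : ℕ => d.primeFactors = S)).card : ℕ) : ℝ)
      = ∑ d ∈ (Icc 1 X).filter (fun d : ℕ => d.primeFactors = S), (1 : ℝ) := by simp
    _ ≤ ∑ d ∈ (Icc 1 X).filter (fun d : ℕ => d.primeFactors = S), (d : ℝ) ^ (-ε) * (X : ℝ) ^ ε := by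
        refine Finset.sum_le_sum fun d hd => ?_
        rw [Finset.mem_filter, Finset.mem_Icc] at hd
        have hd0 : (0 : ℝ) < d := by exact_mod_cast hd.1.1
        have hdX : (d : ℝ) ≤ X := by exact_mod_cast hd.1.2
        rw [Real.rpow_neg hd0.le, inv_mul_eq_div, one_le_div (by positivity)]
        exact Real.rpow_le_rpow hd0.le hdX hε.le
    _ = (∑ d ∈ (Icc 1 X).filter (fun d : ℕ => d.primeFactors = S), (d : ℝ) ^ (-ε)) * (X : ℝ) ^ ε := by
        rw [Finset.sum_mul]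
    _ ≤ _ := mul_le_mul_of_nonneg_right (sum_le hε X S hS) (by positivity)

theorem prod_bd {ε : ℝ} (hε : 0 < ε) : ∃ C : ℝ, 1 ≤ C ∧ ∀ S : Finset ℕ, (∀ p ∈ S, p.Prime) →
    ∏ p ∈ S, cp ε p ≤ C := by
  obtain ⟨M, hM⟩ : ∃ M : ℕ, ∀ p : ℕ, M ≤ p → (2 : ℝ) ≤ (p : ℝ) ^ ε := by
    have h := (tendsto_rpow_atTop hε).comp tendsto_natCast_atTop_atTop
    obtain ⟨M, hM⟩ := (Filter.tendsto_atTop_atTop.1 h) 2
    exact ⟨M, hM⟩
  refine ⟨∏ p ∈ range M, max 1 (cp ε p), ?_, fun S hS => ?_⟩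
  · exact Finset.prod_induction _ (fun x : ℝ => 1 ≤ x)
      (fun a b ha hb => one_le_mul_of_one_le_of_one_le ha hb) le_rfl (fun p _ => le_max_left _ _)
  · have h1 : ∏ p ∈ S, cp ε p ≤ ∏ p ∈ S, max 1 (cp ε p) := by
      refine Finset.prod_le_prod (fun p hp => ?_) fun p _ => le_max_right _ _
      have hp1 : (1 : ℝ) < p := by exact_mod_cast (hS p hp).one_lt
      have := Real.one_lt_rpow hp1 hε
      unfold cp
      apply div_nonneg one_pos.le
      linarith
    refine h1.trans ?_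
    have h2 : ∏ p ∈ S, max 1 (cp ε p) = ∏ p ∈ S.filter (fun p => p < M), max 1 (cp ε p) := by
      rw [Finset.prod_filter]
      refine Finset.prod_congr rfl fun p hp => ?_
      split_ifs with h
      · rfl
      · have h3 := hM p (by omega)
        apply max_eq_left
        unfold cp
        rw [div_le_one (by linarith)]
        linarith
    rw [h2]
    have hsub : S.filter (fun p => p < M) ⊆ range M := fun p hp =>
      Finset.mem_range.2 (Finset.mem_filter.1 hp).2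
    rw [← Finset.prod_sdiff hsub]
    refine le_mul_of_one_le_left (Finset.prod_nonneg fun p _ => le_trans zero_le_one (le_max_left _ _)) ?_
    exact Finset.prod_induction _ (fun x : ℝ => 1 ≤ x)
      (fun a b ha hb => one_le_mul_of_one_le_of_one_le ha hb) le_rfl (fun p _ => le_max_left _ _)

theorem radc : ∀ ε : ℝ, 0 < ε → ∃ C : ℝ, 0 ≤ C ∧ ∀ (X : ℕ) (R : ℝ), 1 ≤ X → 1 ≤ R →
    ((((Icc 1 X).filter (fun d : ℕ => ((∏ p ∈ d.primeFactors, p : ℕ) : ℝ) ≤ R)).card : ℕ) : ℝ) ≤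
      C * R * (X : ℝ) ^ ε := by
  classical
  intro ε hε
  obtain ⟨C, hC1, hC⟩ := prod_bd hε
  refine ⟨C, by linarith, fun X R hX hR => ?_⟩
  have hsub : (Icc 1 X).filter (fun d : ℕ => ((∏ p ∈ d.primeFactors, p : ℕ) : ℝ) ≤ R) ⊆
      (Icc 1 ⌊R⌋₊).biUnion (fun r => (Icc 1 X).filter (fun d : ℕ => d.primeFactors = r.primeFactors)) := by
    intro d hd
    rw [Finset.mem_filter] at hd
    rw [Finset.mem_biUnion]
    refine ⟨∏ p ∈ d.primeFactors, p, ?_, ?_⟩
    · rw [Finset.mem_Icc]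
      refine ⟨?_, Nat.le_floor hd.2⟩
      exact Nat.one_le_iff_ne_zero.2 (Finset.prod_ne_zero_iff.2 fun p hp =>
        (Nat.prime_of_mem_primeFactors hp).ne_zero)
    · rw [Finset.mem_filter]
      exact ⟨hd.1, (Nat.primeFactors_prod fun p hp => Nat.prime_of_mem_primeFactors hp).symm⟩
  have h1 : ((((Icc 1 X).filter (fun d : ℕ => ((∏ p ∈ d.primeFactors, p : ℕ) : ℝ) ≤ R)).card : ℕ) : ℝ) ≤
      ∑ r ∈ Icc 1 ⌊R⌋₊, ((((Icc 1 X).filter (fun d : ℕ => d.primeFactors = r.primeFactors)).card : ℕ) : ℝ) := by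
    have := (Finset.card_le_card hsub).trans Finset.card_biUnion_le
    exact_mod_cast this
  refine h1.trans ?_
  have h2 : ∀ r ∈ Icc 1 ⌊R⌋₊, ((((Icc 1 X).filter (fun d : ℕ => d.primeFactors = r.primeFactors)).card : ℕ) : ℝ) ≤
      C * (X : ℝ) ^ ε := fun r _ =>
    (card_le hε X r.primeFactors fun p hp => Nat.prime_of_mem_primeFactors hp).trans
      (mul_le_mul_of_nonneg_right (hC _ fun p hp => Nat.prime_of_mem_primeFactors hp) (by positivity))
  refine (Finset.sum_le_sum h2).trans ?_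
  rw [Finset.sum_const, Nat.card_Icc, Nat.add_sub_cancel, nsmul_eq_mul]
  have h3 : (⌊R⌋₊ : ℝ) ≤ R := Nat.floor_le (by linarith)
  have h4 : 0 ≤ C * (X : ℝ) ^ ε := by positivity
  calc (⌊R⌋₊ : ℝ) * (C * (X : ℝ) ^ ε) ≤ R * (C * (X : ℝ) ^ ε) := mul_le_mul_of_nonneg_right h3 h4
    _ = C * R * (X : ℝ) ^ ε := by ring

/-- the number of the integers with small radical -/
theorem t_RADC : S_RADC := radc

end Pool.Agent.NH22.DG.C6
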