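import Pool.Agent.NH22.DG.Stm

/-!
# Project DG: few members have a denominator with large part and small radical
-/

set_option autoImplicit false

namespace Pool.Agent.NH22.DG.C7

open Finset Pool.Agent.NH22.DG
open Pool.Agent.TH894.NE (box mem_box)

theorem cnt_le (b : ℕ) (K r N : Fin 2 → ℕ) (f : Fin 2 → ℕ → ℕ) (E : (Fin 2 → ℕ) → Prop)
    (D : Finset ℕ) (E' : ℕ → (Fin 2 → ℕ) → Prop) (h : ∀ m, E m → ∃ d ∈ D, E' d m) :
    cnt b K r N f E ≤ ∑ d ∈ D, cnt b K r N f (E' d) := by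
  classical
  unfold cnt
  rw [← Nat.cast_sum, Nat.cast_le]
  refine (card_le_card ?_).trans card_biUnion_le
  intro S hS
  rw [mem_filter] at hS
  obtain ⟨d, hd, hE⟩ := h _ hS.2
  rw [mem_biUnion]
  exact ⟨d, hd, mem_filter.2 ⟨hS.1, hE⟩⟩

theorem cnt_congr (b : ℕ) (K r N : Fin 2 → ℕ) (f : Fin 2 → ℕ → ℕ) (E E' : (Fin 2 → ℕ) → Prop)
    (h : ∀ m, E m ↔ E' m) : cnt b K r N f E = cnt b K r N f E' := by
  have : E = E' := funext fun m => propext (h m)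
  rw [this]

theorem de_mod (d : ℕ) (m : Fin 2 → ℕ) : d ∣ de (fun i => m i % d) ↔ d ∣ de m := by
  unfold de
  have h : 4 * (m 1 % d) ^ 3 + 27 * (m 0 % d) ^ 2 ≡ 4 * m 1 ^ 3 + 27 * m 0 ^ 2 [MOD d] :=
    (((Nat.mod_modEq (m 1) d).pow 3).mul_left 4).add (((Nat.mod_modEq (m 0) d).pow 2).mul_left 27)
  exact h.dvd_iff dvd_rfl

theorem dj_dvd (m : Fin 2 → ℕ) : dj m ∣ de m := Nat.div_dvd_of_dvd (Nat.gcd_dvd_right _ _)

theorem dj_ne {m : Fin 2 → ℕ} (h : de m ≠ 0) : dj m ≠ 0 := by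
  intro h0
  have := dj_dvd m
  rw [h0, Nat.zero_dvd] at this
  exact h this

theorem big_dvd {w n : ℕ} (hn : n ≠ 0) : big w n ∣ n := by
  unfold big
  conv_rhs => rw [← Nat.prod_factorization_pow_eq_self hn]
  exact Finset.prod_dvd_prod_of_subset _ _ _ (filter_subset _ _)

theorem big_ne {w n : ℕ} : big w n ≠ 0 := by
  unfold big
  refine Finset.prod_ne_zero_iff.2 fun p hp => ?_
  exact pow_ne_zero _ (Nat.prime_of_mem_primeFactors (mem_filter.1 hp).1).ne_zero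

theorem prime_big {w n p : ℕ} (hp : p.Prime) (h : p ∣ big w n) :
    p ∈ n.primeFactors.filter (fun p => w < p) := by
  unfold big at h
  obtain ⟨q, hq, hpq⟩ := (hp.prime.dvd_finsetProd_iff _).1 h
  have h1 := hp.dvd_of_dvd_pow hpq
  have h2 := (Nat.prime_dvd_prime_iff_eq hp (Nat.prime_of_mem_primeFactors
    (mem_filter.1 hq).1)).1 h1
  rw [h2]
  exact hq

/-- the divisor -/
theorem exists_div (hD : S_DIV) {b y : ℕ} (hy : 1 ≤ y) {m : Fin 2 → ℕ} (h0 : de m ≠ 0)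
    (h1 : (y : ℝ) < big (b * b) (dj m)) (h2 : (rbig (b * b) (dj m) : ℝ) < (y : ℝ) ^ (1 / 20 : ℝ)) :
    ∃ d : ℕ, 1 ≤ d ∧ d ≤ y ∧ ((∏ p ∈ d.primeFactors, p : ℕ) : ℝ) ≤ (y : ℝ) ^ (1 / 20 : ℝ) ∧
      (y : ℝ) ^ (1 / 2 : ℝ) ≤ d ∧ (∀ p : ℕ, p.Prime → p ∣ d → b * b < p) ∧ d ∣ de m := by
  have hy1 : (1 : ℝ) ≤ y := by exact_mod_cast hy
  have hle : ∀ p ∈ (dj m).primeFactors.filter (fun p => b * b < p), p ≤ rbig (b * b) (dj m) := by
    intro p hp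
    unfold rbig
    refine Nat.le_of_dvd (Nat.pos_of_ne_zero (Finset.prod_ne_zero_iff.2 fun q hq =>
      (Nat.prime_of_mem_primeFactors (mem_filter.1 hq).1).ne_zero)) (Finset.dvd_prod_of_mem _ hp)
  obtain ⟨d, hd1, hd2, hd3⟩ := hD (big (b * b) (dj m)) ((y : ℝ) ^ (1 / 2 : ℝ))
    ((y : ℝ) ^ (1 / 20 : ℝ)) (Nat.one_le_iff_ne_zero.2 big_ne) (Real.one_le_rpow hy1 (by norm_num))
    (Real.one_le_rpow hy1 (by norm_num))
    ((Real.rpow_le_self_of_one_le hy1 (by norm_num)).trans h1.le) (fun p hp => by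
      have h3 := prime_big (Nat.prime_of_mem_primeFactors hp) (Nat.dvd_of_mem_primeFactors hp)
      have h4 : (p : ℝ) ≤ rbig (b * b) (dj m) := by exact_mod_cast hle p h3
      exact h4.trans h2.le)
  have hsub : d.primeFactors ⊆ (dj m).primeFactors.filter (fun p => b * b < p) := fun p hp =>
    prime_big (Nat.prime_of_mem_primeFactors hp) ((Nat.dvd_of_mem_primeFactors hp).trans hd1)
  have hd0 : d ≠ 0 := fun h => by
    rw [h, Nat.zero_dvd] at hd1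
    exact big_ne hd1
  refine ⟨d, Nat.one_le_iff_ne_zero.2 hd0, ?_, ?_, hd2, fun p hp hpd => ?_,
    hd1.trans ((big_dvd (dj_ne h0)).trans (dj_dvd m))⟩
  · have h3 : (y : ℝ) ^ (1 / 2 : ℝ) * (y : ℝ) ^ (1 / 20 : ℝ) ≤ y := by
      rw [← Real.rpow_add (by linarith)]
      exact Real.rpow_le_self_of_one_le hy1 (by norm_num)
    exact_mod_cast hd3.trans h3
  · have h3 : (∏ p ∈ d.primeFactors, p) ≤ rbig (b * b) (dj m) := by
      unfold rbig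
      refine Finset.prod_le_prod_of_subset_of_one_le' hsub fun q hq _ => ?_
      exact (Nat.prime_of_mem_primeFactors (mem_filter.1 hq).1).one_le
    have h4 : ((∏ p ∈ d.primeFactors, p : ℕ) : ℝ) ≤ rbig (b * b) (dj m) := by exact_mod_cast h3
    exact h4.trans h2.le
  · have h3 := hsub (Nat.mem_primeFactors.2 ⟨hp, hpd, hd0⟩)
    exact (mem_filter.1 h3).2

theorem t_MS (hC : S_CNT) (hS : S_SOL) (hR : S_RADC) (hD : S_DIV) : S_MS := by
  classical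
  intro b hb
  obtain ⟨c, hc, y₀, hcnt⟩ := hC b (1 / 80) 2 hb (by norm_num) (by norm_num)
  obtain ⟨C₁, hC₁, hsol⟩ := hS (1 / 80) (by norm_num)
  obtain ⟨C₂, hC₂, hrad⟩ := hR (1 / 80) (by norm_num)
  obtain ⟨y₁, hy₁⟩ : ∃ y₁ : ℕ, ∀ y : ℕ, y₁ ≤ y → C₂ * (C₁ + 1) ≤ (y : ℝ) ^ (11 / 160 : ℝ) := by
    have h1 := (tendsto_rpow_atTop (y := (11 / 160 : ℝ)) (by norm_num)).comp
      (tendsto_natCast_atTop_atTop (R := ℝ))
    have h2 := h1.eventually_ge_atTop (C₂ * (C₁ + 1))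
    obtain ⟨y₁, h3⟩ := Filter.eventually_atTop.1 h2
    exact ⟨y₁, h3⟩
  refine ⟨c, hc, max (max y₀ y₁) 1, ?_⟩
  intro K r N f y hy hF
  have hyy₀ : y₀ ≤ y := (le_max_left _ _).trans ((le_max_left _ _).trans hy)
  have hyy₁ : y₁ ≤ y := (le_max_right _ _).trans ((le_max_left _ _).trans hy)
  have hy1 : 1 ≤ y := (le_max_right _ _).trans hy
  have hyr : (1 : ℝ) ≤ y := by exact_mod_cast hy1
  have hyp : (0 : ℝ) < y := by linarith
  have htot : 0 ≤ tot K r := Finset.prod_nonneg fun l _ => Nat.cast_nonneg _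
  set D := (Icc 1 y).filter (fun d : ℕ => ((∏ p ∈ d.primeFactors, p : ℕ) : ℝ) ≤
    (y : ℝ) ^ (1 / 20 : ℝ)) with hDdef
  set D' := D.filter (fun d : ℕ => (y : ℝ) ^ (1 / 2 : ℝ) ≤ d ∧ ∀ p : ℕ, p.Prime → p ∣ d → b * b < p)
    with hD'def
  have h1 := cnt_le b K r N f (fun m => de m ≠ 0 ∧ (y : ℝ) < big (b * b) (dj m) ∧
    (rbig (b * b) (dj m) : ℝ) < (y : ℝ) ^ (1 / 20 : ℝ)) D' (fun d m => d ∣ de m) (by
      rintro m ⟨a1, a2, a3⟩
      obtain ⟨d, b1, b2, b3, b4, b5, b6⟩ := exists_div hD hy1 a1 a2 a3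
      exact ⟨d, mem_filter.2 ⟨mem_filter.2 ⟨mem_Icc.2 ⟨b1, b2⟩, b3⟩, b4, b5⟩, b6⟩)
  have h2 : ∀ d ∈ D', cnt b K r N f (fun m => d ∣ de m) ≤
      (C₁ + 1) * (y : ℝ) ^ (-(37 / 160) : ℝ) * tot K r := by
    intro d hd
    obtain ⟨hd1, hd2, hd3⟩ := mem_filter.1 hd
    obtain ⟨hd4, hd5⟩ := mem_filter.1 hd1
    obtain ⟨hd6, hd7⟩ := mem_Icc.1 hd4
    have hdr : (1 : ℝ) ≤ d := by exact_mod_cast hd6
    have hdp : (0 : ℝ) < d := by linarith
    have e1 : cnt b K r N f (fun m => d ∣ de m) = cnt b K r N f (fun m => (fun i => m i % d) ∈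
        (box 2 d).filter (fun m : Fin 2 → ℕ => d ∣ de m)) := by
      refine cnt_congr b K r N f _ _ fun m => ?_
      rw [mem_filter, mem_box, de_mod]
      exact ⟨fun h => ⟨fun i => Nat.mod_lt _ hd6, h⟩, fun h => h.2⟩
    have e2 := hcnt K r N f y hyy₀ hF d hd6 hd7 hd3
      ((box 2 d).filter (fun m : Fin 2 → ℕ => d ∣ de m)) (filter_subset _ _)
    have hcop : Nat.Coprime d 6 := by
      have h4 : 4 ≤ b * b := Nat.mul_le_mul hb hb
      refine Nat.Coprime.symm (Nat.coprime_of_dvd fun p hp hp6 hpd => ?_)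
      have h5 := hd3 p hp hpd
      have h6 : p ∣ 2 * 3 := by simpa using hp6
      rcases (Nat.Prime.dvd_mul hp).1 h6 with h7 | h7
      · have := Nat.le_of_dvd (by norm_num) h7
        omega
      · have := Nat.le_of_dvd (by norm_num) h7
        omega
    have e3 := hsol d hd6 hcop
    rw [e1]
    refine e2.trans (mul_le_mul_of_nonneg_right ?_ htot)
    have e4 : ((((box 2 d).filter (fun m : Fin 2 → ℕ => d ∣ de m)).card : ℕ) : ℝ) / (d : ℝ) ^ 2 ≤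
        C₁ * (y : ℝ) ^ (-(39 / 160) : ℝ) := by
      rw [div_le_iff₀ (by positivity)]
      refine e3.trans ?_
      have e5 : (d : ℝ) ^ (3 / 2 + 1 / 80 : ℝ) = (d : ℝ) ^ (-(39 / 80) : ℝ) * (d : ℝ) ^ 2 := by
        rw [← Real.rpow_natCast, ← Real.rpow_add hdp]
        norm_num
      have e6 : (d : ℝ) ^ (-(39 / 80) : ℝ) ≤ (y : ℝ) ^ (-(39 / 160) : ℝ) := by
        have e7 : (y : ℝ) ^ (-(39 / 160) : ℝ) = ((y : ℝ) ^ (1 / 2 : ℝ)) ^ (-(39 / 80) : ℝ) := by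
          rw [← Real.rpow_mul hyp.le]
          norm_num
        rw [e7]
        exact Real.rpow_le_rpow_of_nonpos (Real.rpow_pos_of_pos hyp _) hd2 (by norm_num)
      rw [e5, mul_assoc]
      exact mul_le_mul_of_nonneg_left (mul_le_mul_of_nonneg_right e6 (by positivity)) hC₁
    have e8 : (y : ℝ) ^ (-(39 / 160) : ℝ) * (y : ℝ) ^ (1 / 80 : ℝ) = (y : ℝ) ^ (-(37 / 160) : ℝ) := by
      rw [← Real.rpow_add hyp]
      norm_num
    have e9 : (y : ℝ) ^ (-2 : ℝ) ≤ (y : ℝ) ^ (-(37 / 160) : ℝ) :=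
      Real.rpow_le_rpow_of_exponent_le hyr (by norm_num)
    calc _ ≤ C₁ * (y : ℝ) ^ (-(39 / 160) : ℝ) * (y : ℝ) ^ (1 / 80 : ℝ) + (y : ℝ) ^ (-2 : ℝ) :=
          add_le_add (mul_le_mul_of_nonneg_right e4 (Real.rpow_nonneg hyp.le _)) le_rfl
      _ ≤ C₁ * (y : ℝ) ^ (-(37 / 160) : ℝ) + (y : ℝ) ^ (-(37 / 160) : ℝ) := by
          rw [mul_assoc, e8]
          exact add_le_add le_rfl e9
      _ = (C₁ + 1) * (y : ℝ) ^ (-(37 / 160) : ℝ) := by ring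
  have h3 : ((D'.card : ℕ) : ℝ) ≤ C₂ * (y : ℝ) ^ (1 / 16 : ℝ) := by
    have g1 : ((D'.card : ℕ) : ℝ) ≤ D.card := by
      exact_mod_cast card_le_card (filter_subset _ _)
    have g2 := hrad y ((y : ℝ) ^ (1 / 20 : ℝ)) hy1 (Real.one_le_rpow hyr (by norm_num))
    rw [← hDdef, mul_assoc, ← Real.rpow_add hyp] at g2
    have g3 : (1 / 20 + 1 / 80 : ℝ) = 1 / 16 := by norm_num
    rw [g3] at g2
    exact g1.trans g2
  refine h1.trans ((Finset.sum_le_sum h2).trans ?_)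
  rw [Finset.sum_const, nsmul_eq_mul]
  have h4 : 0 ≤ (C₁ + 1) * (y : ℝ) ^ (-(37 / 160) : ℝ) * tot K r :=
    mul_nonneg (mul_nonneg (by linarith) (Real.rpow_nonneg hyp.le _)) htot
  refine (mul_le_mul_of_nonneg_right h3 h4).trans ?_
  have h5 : C₂ * (y : ℝ) ^ (1 / 16 : ℝ) * ((C₁ + 1) * (y : ℝ) ^ (-(37 / 160) : ℝ) * tot K r) =
      (C₂ * (C₁ + 1)) * ((y : ℝ) ^ (1 / 16 : ℝ) * (y : ℝ) ^ (-(37 / 160) : ℝ)) * tot K r := by ring
  have h6 : (y : ℝ) ^ (1 / 16 : ℝ) * (y : ℝ) ^ (-(37 / 160) : ℝ) = (y : ℝ) ^ (-(27 / 160) : ℝ) := by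
    rw [← Real.rpow_add hyp]
    norm_num
  have h7 : (y : ℝ) ^ (11 / 160 : ℝ) * (y : ℝ) ^ (-(27 / 160) : ℝ) = (y : ℝ) ^ (-(1 / 10 : ℝ)) := by
    rw [← Real.rpow_add hyp]
    norm_num
  rw [h5, h6, ← h7]
  exact mul_le_mul_of_nonneg_right (mul_le_mul_of_nonneg_right (hy₁ y hyy₁)
    (Real.rpow_nonneg hyp.le _)) htot

end Pool.Agent.NH22.DG.C7
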