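import Pool.Agent.NH22.DG.Stm

/-!
# Project DG: the union of the exceptional sets and the deterministic inequality
-/

set_option autoImplicit false

namespace Pool.Agent.NH22.DG.F1

open Pool.Agent.NH22.DG Finset Filter
open Pool.Agent.Y57.FD (digit change exceptions)

variable {b : ℕ} {K r N : Fin 2 → ℕ} {f : Fin 2 → ℕ → ℕ}

lemma cnt_eq (E : (Fin 2 → ℕ) → Prop) (D : DecidablePred (fun S : Fin 2 → Finset ℕ => E (fun l => change b (K l) (N l) (f l) (S l)))) :
    cnt b K r N f E = ((@Finset.filter _ (fun S : Fin 2 → Finset ℕ => E (fun l => change b (K l) (N l) (f l) (S l))) D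
      (Fintype.piFinset (fun l => powersetCard (r l) (range (K l))))).card : ℝ) := by
  unfold cnt
  congr 2
  ext S
  simp only [mem_filter]

lemma cnt_le {E F : (Fin 2 → ℕ) → Prop} (h : ∀ m, E m → F m) : cnt b K r N f E ≤ cnt b K r N f F := by
  rw [cnt_eq E (Classical.decPred _), cnt_eq F (Classical.decPred _), Nat.cast_le]
  apply card_le_card
  intro S hS
  replace hS := (@mem_filter _ _ (Classical.decPred _) _ _).1 hS
  exact (@mem_filter _ _ (Classical.decPred _) _ _).2 ⟨hS.1, h _ hS.2⟩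

lemma cnt_or {E F : (Fin 2 → ℕ) → Prop} : cnt b K r N f (fun m => E m ∨ F m) ≤ cnt b K r N f E + cnt b K r N f F := by
  rw [cnt_eq (fun m => E m ∨ F m) (Classical.decPred _), cnt_eq E (Classical.decPred _), cnt_eq F (Classical.decPred _), ← Nat.cast_add,
    Nat.cast_le]
  classical
  refine le_trans (card_le_card ?_) (card_union_le _ _)
  intro S hS
  replace hS := (@mem_filter _ _ (Classical.decPred _) _ _).1 hS
  rw [mem_union]
  rcases hS.2 with h | h
  · exact Or.inl ((@mem_filter _ _ (Classical.decPred _) _ _).2 ⟨hS.1, h⟩)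
  · exact Or.inr ((@mem_filter _ _ (Classical.decPred _) _ _).2 ⟨hS.1, h⟩)

lemma cnt_ex (E : ℕ → (Fin 2 → ℕ) → Prop) (n : ℕ) :
    cnt b K r N f (fun m => ∃ i < n, E i m) ≤ ∑ i ∈ range n, cnt b K r N f (E i) := by
  induction n with
  | zero =>
      have : cnt b K r N f (fun m => ∃ i < 0, E i m) = 0 := by
        rw [cnt_eq _ (Classical.decPred _)]
        norm_cast
        rw [card_eq_zero, eq_empty_iff_forall_notMem]
        intro S hS
        obtain ⟨i, hi, -⟩ := ((@mem_filter _ _ (Classical.decPred _) _ _).1 hS).2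
        omega
      rw [this]
      simp
  | succ n ih =>
      rw [sum_range_succ]
      refine le_trans ?_ (add_le_add_left ih _)
      refine le_trans (cnt_le ?_) cnt_or
      rintro m ⟨i, hi, hE⟩
      rcases Nat.lt_succ_iff_lt_or_eq.1 hi with h | h
      · exact Or.inl ⟨i, h, hE⟩
      · exact Or.inr (h ▸ hE)

lemma exc_cnt (E : (Fin 2 → ℕ) → Prop) : (exceptions b K r N f E : ℝ) = cnt b K r N f (fun m => ¬ E m) := by
  rw [cnt_eq _ (Classical.decPred _)]
  unfold exceptions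
  congr 2
  ext S
  simp only [mem_filter]

lemma tot_pos (h : ∀ l, 2 * r l ≤ K l) : 0 < tot K r := by
  unfold tot
  apply prod_pos
  intro l _
  exact_mod_cast Nat.choose_pos (by have := h l; omega)

/-- the good members -/
def GoodM (b : ℕ) (c : ℝ) (I ρ : ℕ) (m : Fin 2 → ℕ) : Prop :=
  Real.exp (c * ρ / 16) ≤ dj m ∧ ∀ i ≤ I, Real.exp (c * ρ / 2 ^ i) < big (b * b) (dj m) →
    Real.exp (c * ρ / 2 ^ i / 40) ≤ rbig (b * b) (dj m)

lemma exp_floor {X : ℝ} (hX : 2 ≤ X) : Real.exp (X / 2) ≤ (⌊Real.exp X⌋₊ : ℝ) := by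
  have h1 : Real.exp X < (⌊Real.exp X⌋₊ : ℝ) + 1 := Nat.lt_floor_add_one _
  have h2 : Real.exp X = Real.exp (X / 2) * Real.exp (X / 2) := by rw [← Real.exp_add]; congr 1; ring
  have h3 : (2 : ℝ) ≤ Real.exp (X / 2) := by
    have := Real.add_one_le_exp (X / 2)
    linarith
  nlinarith

lemma de_dj {m : Fin 2 → ℕ} (h : dj m ≠ 0) : de m ≠ 0 := by
  intro h0
  apply h
  unfold dj
  rw [h0]
  simp

theorem count (hV : S_VAL) (hM : S_MS) (b : ℕ) (hb : 2 ≤ b) : ∃ c : ℝ, 0 < c ∧ ∀ I : ℕ, ∃ r₀ : ℕ,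
    ∀ (K r N : Fin 2 → ℕ) (f : Fin 2 → ℕ → ℕ) (ρ : ℕ), (∀ l, 2 * r l ≤ K l) → (∀ l, N l < b ^ K l) →
    (∀ l j, f l j < b ∧ f l j ≠ digit b j (N l)) → r₀ ≤ ρ → (∀ l, ρ ≤ r l) →
    cnt b K r N f (fun m => ¬ GoodM b c I ρ m) ≤ Real.exp (-(c / 2 ^ I / 40 * ρ)) * tot K r := by
  obtain ⟨cV, hcV, yV, hV⟩ := hV b hb
  obtain ⟨cM, hcM, yM, hM⟩ := hM b hb
  refine ⟨min cV cM, lt_min hcV hcM, fun I => ?_⟩
  obtain ⟨c, hc⟩ : ∃ c, c = min cV cM := ⟨_, rfl⟩
  rw [← hc]
  have hc0 : 0 < c := by rw [hc]; exact lt_min hcV hcM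
  have hcV' : c ≤ cV := by rw [hc]; exact min_le_left _ _
  have hcM' : c ≤ cM := by rw [hc]; exact min_le_right _ _
  have hcI : 0 < c / 2 ^ I := by positivity
  have htend : Tendsto (fun ρ : ℕ => c / 2 ^ I * (ρ : ℝ)) atTop atTop :=
    Tendsto.const_mul_atTop hcI tendsto_natCast_atTop_atTop
  have hev1 := htend.eventually (eventually_ge_atTop (2 * (yV + yM + 1 : ℕ) + 2 : ℝ))
  have hev2 := htend.eventually (eventually_ge_atTop (40 * ((I : ℝ) + 2)))
  obtain ⟨r₀, hr₀⟩ := eventually_atTop.1 (hev1.and hev2)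
  refine ⟨r₀, fun K r N f ρ hrK hN hf hρ hρr => ?_⟩
  obtain ⟨h1, h2⟩ := hr₀ ρ hρ
  obtain ⟨X, hX⟩ : ∃ X : ℕ → ℝ, X = fun i => c * ρ / 2 ^ i := ⟨_, rfl⟩
  have hXi : ∀ i, X i = c * ρ / 2 ^ i := fun i => by rw [hX]
  have hXI : X I = c / 2 ^ I * ρ := by rw [hXi]; ring
  have hXmono : ∀ i ≤ I, X I ≤ X i := by
    intro i hi
    rw [hXi, hXi]
    apply div_le_div_of_nonneg_left (by positivity) (by positivity)
    exact pow_le_pow_right₀ (by norm_num) hi
  have hXge : ∀ i ≤ I, 2 * ((yV + yM + 1 : ℕ) : ℝ) + 2 ≤ X i := fun i hi => (by rw [← hXI] at h1; exact h1 : _ ≤ X I).trans (hXmono i hi)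
  have hcast : (0 : ℝ) ≤ ((yV + yM + 1 : ℕ) : ℝ) := Nat.cast_nonneg _
  have hX2 : ∀ i ≤ I, 2 ≤ X i := fun i hi => by linarith [hXge i hi]
  obtain ⟨y, hy⟩ : ∃ y : ℕ → ℕ, y = fun i => ⌊Real.exp (X i)⌋₊ := ⟨_, rfl⟩
  have hyi : ∀ i, y i = ⌊Real.exp (X i)⌋₊ := fun i => by rw [hy]
  have hylo : ∀ i ≤ I, Real.exp (X i / 2) ≤ y i := fun i hi => by rw [hyi]; exact exp_floor (hX2 i hi)
  have hyhi : ∀ i, (y i : ℝ) ≤ Real.exp (X i) := fun i => by rw [hyi]; exact Nat.floor_le (Real.exp_pos _).le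
  have hybig : ∀ i ≤ I, yV + yM + 1 ≤ y i := by
    intro i hi
    have h3 := hylo i hi
    have h4 := Real.add_one_le_exp (X i / 2)
    have h5 : ((yV + yM + 1 : ℕ) : ℝ) ≤ y i := by linarith [hXge i hi]
    exact_mod_cast h5
  have hfam : ∀ (c' : ℝ), c ≤ c' → ∀ i, Fam b c' (y i) K r N f := by
    intro c' hc' i
    refine ⟨hrK, fun l => (hyhi i).trans ?_, hN, hf⟩
    apply Real.exp_le_exp.2
    rw [hXi]
    have h3 : (ρ : ℝ) ≤ r l := by exact_mod_cast hρr l
    calc c * ρ / 2 ^ i ≤ c * ρ := by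
          apply div_le_self (by positivity)
          exact one_le_pow₀ (by norm_num)
      _ ≤ c' * r l := mul_le_mul hc' h3 (Nat.cast_nonneg _) (by linarith)
  have hT := tot_pos (K := K) (r := r) hrK
  -- the exceptional sets
  have hE0 := hV K r N f (y 0) (by have := hybig 0 (Nat.zero_le _); omega) (hfam cV hcV' 0)
  have hEi : ∀ i ≤ I, _ := fun i hi => hM K r N f (y i) (by have := hybig i hi; omega) (hfam cM hcM' i)
  have hsub : cnt b K r N f (fun m => ¬ GoodM b c I ρ m) ≤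
      cnt b K r N f (fun m => (dj m : ℝ) < (y 0 : ℝ) ^ (1 / 8 : ℝ) ∨ ∃ i < I + 1, (de m ≠ 0 ∧ (y i : ℝ) < big (b * b) (dj m) ∧
        (rbig (b * b) (dj m) : ℝ) < (y i : ℝ) ^ (1 / 20 : ℝ))) := by
    apply cnt_le
    intro m hm
    by_contra hcon
    push Not at hcon
    obtain ⟨k1, k2⟩ := hcon
    apply hm
    have e1 : Real.exp (c * ρ / 16) ≤ dj m := by
      refine le_trans ?_ k1
      have h3 := hylo 0 (Nat.zero_le _)
      have h4 : X 0 = c * ρ := by rw [hXi]; simp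
      rw [h4] at h3
      calc Real.exp (c * ρ / 16) = (Real.exp (c * ρ / 2)) ^ (1 / 8 : ℝ) := by rw [← Real.exp_mul]; congr 1; ring
        _ ≤ (y 0 : ℝ) ^ (1 / 8 : ℝ) := Real.rpow_le_rpow (Real.exp_pos _).le h3 (by norm_num)
    refine ⟨e1, fun i hi hbig => ?_⟩
    have h3 : dj m ≠ 0 := by
      intro h0
      rw [h0] at e1
      have := Real.exp_pos (c * ρ / 16)
      simp only [Nat.cast_zero] at e1
      linarith
    have h4 := k2 i (by omega) (de_dj h3) (by
      refine (hyhi i).trans_lt ?_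
      rw [hXi]
      exact hbig)
    refine le_trans ?_ h4
    have h5 := hylo i hi
    rw [hXi] at h5
    calc Real.exp (c * ρ / 2 ^ i / 40) = (Real.exp (c * ρ / 2 ^ i / 2)) ^ (1 / 20 : ℝ) := by rw [← Real.exp_mul]; congr 1; ring
      _ ≤ (y i : ℝ) ^ (1 / 20 : ℝ) := Real.rpow_le_rpow (Real.exp_pos _).le h5 (by norm_num)
  refine hsub.trans (cnt_or.trans ?_)
  have hneg : ∀ i ≤ I, ∀ e : ℝ, 0 < e → (y i : ℝ) ^ (-e) ≤ Real.exp (-(X I / 2 * e)) := by
    intro i hi e he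
    have h3 : Real.exp (X I / 2) ≤ y i := le_trans (Real.exp_le_exp.2 (by linarith [hXmono i hi])) (hylo i hi)
    calc (y i : ℝ) ^ (-e) ≤ (Real.exp (X I / 2)) ^ (-e) := Real.rpow_le_rpow_of_nonpos (Real.exp_pos _) h3 (by linarith)
      _ = Real.exp (-(X I / 2 * e)) := by rw [← Real.exp_mul]; congr 1; ring
  have hXI2 := hX2 I le_rfl
  have hA : cnt b K r N f (fun m => (dj m : ℝ) < (y 0 : ℝ) ^ (1 / 8 : ℝ)) ≤ Real.exp (-(X I / 20)) * tot K r := by
    refine hE0.trans (mul_le_mul_of_nonneg_right ?_ hT.le)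
    refine (hneg 0 (Nat.zero_le _) (1 / 2) (by norm_num)).trans (Real.exp_le_exp.2 (by linarith))
  have hB : cnt b K r N f (fun m => ∃ i < I + 1, (de m ≠ 0 ∧ (y i : ℝ) < big (b * b) (dj m) ∧
        (rbig (b * b) (dj m) : ℝ) < (y i : ℝ) ^ (1 / 20 : ℝ))) ≤ (I + 1) * (Real.exp (-(X I / 20)) * tot K r) := by
    refine (cnt_ex (fun i m => de m ≠ 0 ∧ (y i : ℝ) < big (b * b) (dj m) ∧
        (rbig (b * b) (dj m) : ℝ) < (y i : ℝ) ^ (1 / 20 : ℝ)) (I + 1)).trans ?_
    calc _ ≤ ∑ _i ∈ range (I + 1), Real.exp (-(X I / 20)) * tot K r := by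
          apply sum_le_sum
          intro i hi
          rw [mem_range] at hi
          refine (hEi i (by omega)).trans (mul_le_mul_of_nonneg_right ?_ hT.le)
          refine (hneg i (by omega) (1 / 10) (by norm_num)).trans (Real.exp_le_exp.2 (by linarith))
      _ = (I + 1) * (Real.exp (-(X I / 20)) * tot K r) := by
          rw [sum_const, card_range, nsmul_eq_mul]
          push_cast
          ring
  have hfin : ((I : ℝ) + 2) * Real.exp (-(X I / 20)) ≤ Real.exp (-(c / 2 ^ I / 40 * ρ)) := by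
    have h3 : (I : ℝ) + 2 ≤ Real.exp (X I / 40) := by
      have h4 := Real.add_one_le_exp (X I / 40)
      have h5 : 40 * ((I : ℝ) + 2) ≤ X I := by rw [hXI]; exact h2
      linarith
    calc ((I : ℝ) + 2) * Real.exp (-(X I / 20)) ≤ Real.exp (X I / 40) * Real.exp (-(X I / 20)) :=
          mul_le_mul_of_nonneg_right h3 (Real.exp_pos _).le
      _ = Real.exp (-(c / 2 ^ I / 40 * ρ)) := by
          rw [← Real.exp_add, hXI]
          congr 1
          ring
  calc _ ≤ Real.exp (-(X I / 20)) * tot K r + (I + 1) * (Real.exp (-(X I / 20)) * tot K r) := add_le_add hA hB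
    _ = ((I : ℝ) + 2) * Real.exp (-(X I / 20)) * tot K r := by ring
    _ ≤ _ := mul_le_mul_of_nonneg_right hfin hT.le

/-- the deterministic inequality -/
theorem det (b : ℕ) (c Λ δ : ℝ) (I ρ : ℕ) (m : Fin 2 → ℕ) (hc : 0 < c) (hρ : 1 ≤ ρ) (hΛ : 0 ≤ Λ) (hg : GoodM b c I ρ m)
    (hde : Real.log (big (b * b) (dj m)) ≤ Λ * ρ) (hI : 16 / 2 ^ I ≤ δ) (hb1 : 1 ≤ big (b * b) (dj m))
    (hr1 : 1 ≤ rbig (b * b) (dj m)) :
    Real.log (big (b * b) (dj m)) ≤ (80 + 40 * Λ / c) * Real.log (rbig (b * b) (dj m)) + δ * Real.log (dj m) := by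
  obtain ⟨h1, h2⟩ := hg
  have hρ0 : (0 : ℝ) < ρ := by exact_mod_cast hρ
  have hB0 : (0 : ℝ) < big (b * b) (dj m) := by exact_mod_cast hb1
  have hR0 : (0 : ℝ) < rbig (b * b) (dj m) := by exact_mod_cast hr1
  have hR1 : (1 : ℝ) ≤ rbig (b * b) (dj m) := by exact_mod_cast hr1
  have hlR : 0 ≤ Real.log (rbig (b * b) (dj m)) := Real.log_nonneg hR1
  have hdj0 : (0 : ℝ) < dj m := lt_of_lt_of_le (Real.exp_pos _) h1
  have hldj : c * ρ / 16 ≤ Real.log (dj m) := (Real.le_log_iff_exp_le hdj0).2 h1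
  have hδ : 0 ≤ δ := le_trans (by positivity) hI
  have hcρ : 0 < c * ρ := by positivity
  have hldj0 : 0 ≤ Real.log (dj m) := le_trans (by positivity) hldj
  have key : ∀ n ≤ I, Real.log (big (b * b) (dj m)) ≤ (80 + 40 * Λ / c) * Real.log (rbig (b * b) (dj m)) ∨
      Real.log (big (b * b) (dj m)) ≤ c * ρ / 2 ^ n := by
    intro n
    induction n with
    | zero =>
        intro _
        by_cases h : Real.log (big (b * b) (dj m)) ≤ c * ρ / 2 ^ 0
        · exact Or.inr h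
        · left
          have h3 := h2 0 (Nat.zero_le _) (by
            rw [not_le] at h
            exact (Real.lt_log_iff_exp_lt hB0).1 h)
          have h4 : c * ρ / 2 ^ 0 / 40 ≤ Real.log (rbig (b * b) (dj m)) := (Real.le_log_iff_exp_le hR0).2 h3
          rw [pow_zero, div_one] at h4
          have h5 : Λ * ρ ≤ 40 * Λ / c * Real.log (rbig (b * b) (dj m)) := by
            calc Λ * ρ = 40 * Λ / c * (c * ρ / 40) := by field_simp
              _ ≤ _ := mul_le_mul_of_nonneg_left h4 (by positivity)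
          linarith
    | succ n ih =>
        intro hn
        rcases ih (by omega) with h | h
        · exact Or.inl h
        · by_cases h' : Real.log (big (b * b) (dj m)) ≤ c * ρ / 2 ^ (n + 1)
          · exact Or.inr h'
          · left
            have h3 := h2 (n + 1) hn (by
              rw [not_le] at h'
              exact (Real.lt_log_iff_exp_lt hB0).1 h')
            have h4 : c * ρ / 2 ^ (n + 1) / 40 ≤ Real.log (rbig (b * b) (dj m)) := (Real.le_log_iff_exp_le hR0).2 h3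
            have h5 : c * ρ / 2 ^ n = 80 * (c * ρ / 2 ^ (n + 1) / 40) := by
              rw [pow_succ]
              field_simp
              ring
            have h6 : 0 ≤ 40 * Λ / c * Real.log (rbig (b * b) (dj m)) := by positivity
            linarith
  rcases key I le_rfl with h | h
  · have : 0 ≤ δ * Real.log (dj m) := mul_nonneg hδ hldj0
    linarith
  · have h3 : c * ρ / 2 ^ I ≤ δ * Real.log (dj m) := by
      calc c * ρ / 2 ^ I = 16 / 2 ^ I * (c * ρ / 16) := by field_simp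
        _ ≤ δ * Real.log (dj m) := mul_le_mul hI hldj (by positivity) hδ
    have h4 : 0 ≤ (80 + 40 * Λ / c) * Real.log (rbig (b * b) (dj m)) := by positivity
    linarith

end Pool.Agent.NH22.DG.F1
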