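import Pool.Agent.NH22.DG.StmP
import Pool.Agent.NH22.DG.F1

/-!
# Project DG: final assembly
-/

set_option autoImplicit false

namespace Pool.Agent.NH22.DG.F2

open Pool.Agent.NH22.DG Pool.Agent.NH22.DG.F1 Finset Filter NumberField IsDedekindDomain
open Pool.Agent.Y57.FD (digit change exceptions)
open Pool.Agent.TH910.LS Pool.Agent.Y725.LS

theorem t_SZ (hA : S_PA) (hB : S_PB) (hH : S_HT) : S_SZ := by
  intro w m σ δ hde hσ hδ h L _ _ _
  obtain ⟨F, hF, hF2⟩ := hB w m hde L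
  refine ⟨∅, F, by simp, hF, fun S hS => ?_⟩
  have h1 := hA w m hde S (fun v hv => ⟨(hS v hv).2.1, (hS v hv).2.2⟩)
  have h2 := (hH m hde).2.1
  exact (h1.trans h).trans (add_le_add (mul_le_mul_of_nonneg_left hF2 hσ) (mul_le_mul_of_nonneg_left h2 hδ))

/-- the strong alternative for all forms of the powers of the curve -/
def StrongLS (g : ℕ) (c₁ : ℝ) (c₂ : ℕ) (m : Fin 2 → ℕ) : Prop :=
  de m ≠ 0 ∧ ∀ (L : Type) [Field L] [NumberField L] [IsGalois ℚ L] [DecidableEq L],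
    ChatLim L ((m 1 : ℕ) : 𝓞 ℚ) ((m 0 : ℕ) : 𝓞 ℚ) ∧
    ∀ (ρ : (L ≃ₐ[ℚ] L) →* Matrix (Fin g) (Fin g) ℤ) (M : Matrix (Fin g) (Fin g) ℤ)
      (P : Fin g → Pts L ((m 1 : ℕ) : 𝓞 ℚ) ((m 0 : ℕ) : 𝓞 ℚ)) (T : Finset (HeightOneSpectrum (𝓞 L))),
      Faithful ρ → Polar ρ M → FixedPt ρ P → RamPrimes ℚ T →
      SubvarLe c₂ ρ M P ∨ (¬ IsOfFinAddOrder P ∧
        c₁ * (Real.log (2 + m 0 + m 1) + logNorms T / Module.finrank ℚ L) ≤ chatM M P / Module.finrank ℚ L)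

lemma cnt_le' {b : ℕ} {K r N : Fin 2 → ℕ} {f : Fin 2 → ℕ → ℕ} {E F : (Fin 2 → ℕ) → Prop}
    (h : ∀ S : Fin 2 → Finset ℕ, E (fun l => change b (K l) (N l) (f l) (S l)) → F (fun l => change b (K l) (N l) (f l) (S l))) :
    cnt b K r N f E ≤ cnt b K r N f F := by
  rw [cnt_eq E (Classical.decPred _), cnt_eq F (Classical.decPred _), Nat.cast_le]
  apply card_le_card
  intro S hS
  replace hS := (@mem_filter _ _ (Classical.decPred _) _ _).1 hS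
  exact (@mem_filter _ _ (Classical.decPred _) _ _).2 ⟨hS.1, h _ hS.2⟩

lemma big_pos (w n : ℕ) : 1 ≤ big w n := by
  unfold big
  apply Nat.succ_le_of_lt
  apply prod_pos
  intro p hp
  exact Nat.pow_pos (Nat.prime_of_mem_primeFactors (mem_filter.1 hp).1).pos

lemma rbig_pos (w n : ℕ) : 1 ≤ rbig w n := by
  unfold rbig
  apply Nat.succ_le_of_lt
  apply prod_pos
  intro p hp
  exact (Nat.prime_of_mem_primeFactors (mem_filter.1 hp).1).pos

lemma big_le (w n : ℕ) (hn : n ≠ 0) : big w n ≤ n := by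
  conv_rhs => rw [← Nat.prod_factorization_pow_eq_self hn, Nat.prod_factorization_eq_prod_primeFactors]
  unfold big
  apply prod_le_prod_of_subset_of_one_le' (filter_subset _ _)
  intro p hp _
  exact Nat.one_le_pow _ _ (Nat.prime_of_mem_primeFactors hp).pos

lemma dj_le (m : Fin 2 → ℕ) : dj m ≤ de m := Nat.div_le_self _ _

theorem fin (hV : S_VAL) (hM : S_MS) (hZ : S_SZ) (hH : S_HT) (b g : ℕ) (lam : ℝ) (hb : 2 ≤ b) (hg : 0 < g) (hlam : 0 < lam) :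
    ∃ c₁ η : ℝ, 0 < c₁ ∧ 0 < η ∧ ∃ c₂ r₀ : ℕ, ∀ (K r N : Fin 2 → ℕ) (f : Fin 2 → ℕ → ℕ), (∀ l, 2 * r l ≤ K l) → (∀ l, r₀ ≤ r l) →
    (∀ l l', (K l : ℝ) ≤ lam * r l') → (∀ l, N l < b ^ K l) → (∀ l j, f l j < b ∧ f l j ≠ digit b j (N l)) →
    (exceptions b K r N f (StrongLS g c₁ c₂) : ℝ) ≤ Real.exp (-(η * r 0)) * ∏ l, ((K l).choose (r l) : ℝ) := by
  obtain ⟨c, hc, hcount⟩ := count hV hM b hb
  have hbr : (2 : ℝ) ≤ b := by exact_mod_cast hb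
  have hlb : 0 ≤ Real.log b := Real.log_nonneg (by linarith)
  obtain ⟨Λ, hΛ⟩ : ∃ Λ : ℝ, Λ = 4 + 5 * lam * Real.log b := ⟨_, rfl⟩
  have hΛ0 : 0 ≤ Λ := by rw [hΛ]; positivity
  obtain ⟨κ, hκ⟩ : ∃ κ : ℝ, κ = 32 * lam * Real.log b / c := ⟨_, rfl⟩
  have hκ0 : 0 ≤ κ := by rw [hκ]; positivity
  obtain ⟨κ₂, hκ₂⟩ : ∃ κ₂ : ℝ, κ₂ = 16 * (1 + 2 * lam * Real.log b) / c := ⟨_, rfl⟩
  have hκ₂0 : 0 ≤ κ₂ := by rw [hκ₂]; positivity
  obtain ⟨σ, hσ⟩ : ∃ σ : ℝ, σ = 80 + 40 * Λ / c := ⟨_, rfl⟩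
  have hσ0 : 0 ≤ σ := by rw [hσ]; positivity
  obtain ⟨c₁, δ, hc₁, hδ, c₂, hmain⟩ := strong_main 1 g 0 hg κ σ hκ0
  obtain ⟨A, c₁', -, c₂', hmain⟩ := hmain (b * b).factorial (Nat.factorial_pos _).ne'
  obtain ⟨I, hI⟩ : ∃ I : ℕ, 16 / 2 ^ I ≤ δ := by
    obtain ⟨I, hI⟩ := exists_pow_lt_of_lt_one (show 0 < δ / 16 by positivity) (show (1 / 2 : ℝ) < 1 by norm_num)
    refine ⟨I, ?_⟩
    have : (16 : ℝ) / 2 ^ I = 16 * (1 / 2) ^ I := by rw [one_div, inv_pow]; rfl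
    rw [this]
    linarith
  obtain ⟨r₀, hr₀⟩ := hcount I
  obtain ⟨η, hη⟩ : ∃ η : ℝ, η = c / 2 ^ I / 40 / lam := ⟨_, rfl⟩
  have hη0 : 0 < η := by rw [hη]; positivity
  obtain ⟨r₁, hr₁⟩ := exists_nat_gt (16 * A / c)
  refine ⟨c₁ / (1 + κ₂), η, by positivity, hη0, c₂, r₀ + r₁ + 1, fun K r N f hrK hr hKr hN hf => ?_⟩
  obtain ⟨ρ, hρ⟩ : ∃ ρ, ρ = min (r 0) (r 1) := ⟨_, rfl⟩
  have hρl : ∀ l, ρ ≤ r l := by
    intro l
    fin_cases l
    · rw [hρ]; exact min_le_left _ _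
    · rw [hρ]; exact min_le_right _ _
  have hρ0 : r₀ + r₁ + 1 ≤ ρ := by rw [hρ]; exact le_min (hr 0) (hr 1)
  have hρ1 : 1 ≤ ρ := by omega
  have hρr : (1 : ℝ) ≤ ρ := by exact_mod_cast hρ1
  have hKρ : ∀ l, (K l : ℝ) ≤ lam * ρ := by
    intro l
    rw [hρ]
    rcases min_choice (r 0) (r 1) with h | h
    · rw [h]; exact hKr l 0
    · rw [h]; exact hKr l 1
  have hcnt := hr₀ K r N f ρ hrK hN hf (by omega) hρl
  have hchange : ∀ (S : Fin 2 → Finset ℕ) (l : Fin 2), change b (K l) (N l) (f l) (S l) < b ^ K l := by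
    intro S l
    exact Pool.Agent.TH894.SM.change_lt b (K l) (N l) (by omega) (f l) (fun j => (hf l j).1) (S l)
  -- good members satisfy the inequality
  have hgood : ∀ m : Fin 2 → ℕ, (∀ l, m l < b ^ K l) → GoodM b c I ρ m → StrongLS g (c₁ / (1 + κ₂)) c₂ m := by
    intro m hmK hgm
    have hdj1 : Real.exp (c * ρ / 16) ≤ dj m := hgm.1
    have hdj0 : (0 : ℝ) < dj m := lt_of_lt_of_le (Real.exp_pos _) hdj1
    have hdjn : dj m ≠ 0 := by
      intro h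
      rw [h] at hdj0
      simp at hdj0
    have hde : de m ≠ 0 := de_dj hdjn
    have hldj : c * ρ / 16 ≤ Real.log (dj m) := (Real.le_log_iff_exp_le hdj0).2 hdj1
    have hlogm : ∀ l, Real.log (1 + m l) ≤ lam * ρ * Real.log b := by
      intro l
      have h1 : (1 : ℝ) + m l ≤ (b : ℝ) ^ K l := by
        have := hmK l
        have h2 : 1 + m l ≤ b ^ K l := by omega
        exact_mod_cast h2
      calc Real.log (1 + m l) ≤ Real.log ((b : ℝ) ^ K l) := Real.log_le_log (by positivity) h1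
        _ = K l * Real.log b := Real.log_pow _ _
        _ ≤ lam * ρ * Real.log b := mul_le_mul_of_nonneg_right (hKρ l) hlb
    have hbig : Real.log (big (b * b) (dj m)) ≤ Λ * ρ := by
      have h1 : (big (b * b) (dj m) : ℝ) ≤ de m := by exact_mod_cast (big_le _ _ hdjn).trans (dj_le m)
      have h2 : (0 : ℝ) < big (b * b) (dj m) := by exact_mod_cast big_pos _ _
      have h3 : (de m : ℝ) ≤ 31 * ((1 + (m 1 : ℝ)) ^ 3 * (1 + (m 0 : ℝ)) ^ 2) := by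
        have e1 : (0 : ℝ) ≤ m 1 := Nat.cast_nonneg _
        have e0 : (0 : ℝ) ≤ m 0 := Nat.cast_nonneg _
        have e2 : (m 1 : ℝ) ^ 3 ≤ (1 + (m 1 : ℝ)) ^ 3 * (1 + (m 0 : ℝ)) ^ 2 := by
          have k1 : (m 1 : ℝ) ^ 3 ≤ (1 + (m 1 : ℝ)) ^ 3 := pow_le_pow_left₀ e1 (by linarith) 3
          have k2 : (1 : ℝ) ≤ (1 + (m 0 : ℝ)) ^ 2 := one_le_pow₀ (by linarith)
          have k3 : (0 : ℝ) ≤ (1 + (m 1 : ℝ)) ^ 3 := by positivity
          nlinarith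
        have e3 : (m 0 : ℝ) ^ 2 ≤ (1 + (m 1 : ℝ)) ^ 3 * (1 + (m 0 : ℝ)) ^ 2 := by
          have k1 : (m 0 : ℝ) ^ 2 ≤ (1 + (m 0 : ℝ)) ^ 2 := pow_le_pow_left₀ e0 (by linarith) 2
          have k2 : (1 : ℝ) ≤ (1 + (m 1 : ℝ)) ^ 3 := one_le_pow₀ (by linarith)
          have k3 : (0 : ℝ) ≤ (1 + (m 0 : ℝ)) ^ 2 := by positivity
          nlinarith
        unfold de
        push_cast
        linarith
      have h4 : Real.log 31 ≤ 4 := by
        rw [Real.log_le_iff_le_exp (by norm_num)]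
        have := Real.exp_one_gt_d9
        have h5 : (2.7 : ℝ) ^ 4 ≤ Real.exp 1 ^ 4 := pow_le_pow_left₀ (by norm_num) (by linarith) 4
        rw [← Real.exp_nat_mul] at h5
        norm_num at h5 ⊢
        linarith
      have h5 : Real.log (31 * ((1 + (m 1 : ℝ)) ^ 3 * (1 + m 0) ^ 2)) = Real.log 31 + (3 * Real.log (1 + m 1) + 2 * Real.log (1 + m 0)) := by
        have e1 : (0 : ℝ) ≤ m 1 := Nat.cast_nonneg _
        have e0 : (0 : ℝ) ≤ m 0 := Nat.cast_nonneg _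
        rw [Real.log_mul (by norm_num) (by positivity), Real.log_mul (by positivity) (by positivity), Real.log_pow, Real.log_pow]
        push_cast
        ring
      have h6 := hlogm 1
      have h7 := hlogm 0
      calc Real.log (big (b * b) (dj m)) ≤ Real.log (31 * ((1 + (m 1 : ℝ)) ^ 3 * (1 + m 0) ^ 2)) := Real.log_le_log h2 (h1.trans h3)
        _ = Real.log 31 + (3 * Real.log (1 + m 1) + 2 * Real.log (1 + m 0)) := h5
        _ ≤ 4 * ρ + (3 * (lam * ρ * Real.log b) + 2 * (lam * ρ * Real.log b)) := by linarith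
        _ = Λ * ρ := by rw [hΛ]; ring
    have hdet := det b c Λ δ I ρ m hc hρ1 hΛ0 hgm hbig hI (big_pos _ _) (rbig_pos _ _)
    rw [← hσ] at hdet
    obtain ⟨ht1, ht2, ht3, ht4⟩ := hH m hde
    obtain ⟨J, hJ⟩ : ∃ J : ℝ, J = absH (jinv (((m 1 : ℕ) : 𝓞 ℚ) : ℚ) (((m 0 : ℕ) : 𝓞 ℚ) : ℚ)) := ⟨_, rfl⟩
    rw [← hJ] at ht1
    have hJ1 : c * ρ / 16 ≤ J := hldj.trans ht1
    have hJ0 : 0 ≤ J := le_trans (by positivity) hJ1
    have hcond : absH (((m 1 : ℕ) : 𝓞 ℚ) : ℚ) + absH (((m 0 : ℕ) : 𝓞 ℚ) : ℚ) ≤ κ * (1 + J) := by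
      have h6 := hlogm 1
      have h7 := hlogm 0
      calc absH (((m 1 : ℕ) : 𝓞 ℚ) : ℚ) + absH (((m 0 : ℕ) : 𝓞 ℚ) : ℚ) ≤ 2 * (lam * ρ * Real.log b) := by linarith
        _ = κ * (c * ρ / 16) := by rw [hκ]; field_simp; ring
        _ ≤ κ * (1 + J) := mul_le_mul_of_nonneg_left (by linarith) hκ0
    have hA : A < J := by
      refine lt_of_lt_of_le ?_ hJ1
      have h6 : (r₁ : ℝ) ≤ ρ := by exact_mod_cast (by omega : r₁ ≤ ρ)
      have h7 : 16 * A / c < ρ := lt_of_lt_of_le hr₁ h6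
      rw [div_lt_iff₀ hc] at h7
      linarith
    have hne : 4 * (((m 1 : ℕ) : 𝓞 ℚ) : ℚ) ^ 3 + 27 * (((m 0 : ℕ) : 𝓞 ℚ) : ℚ) ^ 2 ≠ 0 := by
      have h6 : ((de m : ℕ) : ℚ) ≠ 0 := by exact_mod_cast hde
      unfold de at h6
      push_cast at h6 ⊢
      exact h6
    refine ⟨hde, fun L _ _ _ _ => ⟨chatLim _ _ hne L, fun ρ' M P T hf' hM' hP hT => ?_⟩⟩
    have hSz := hZ (b * b) m σ δ hde hσ0 hδ.le hdet L
    have hres := hmain ℚ (by simp) ((m 1 : ℕ) : 𝓞 ℚ) ((m 0 : ℕ) : 𝓞 ℚ) hne (by rw [← hJ]; exact hcond) L hSz ρ' M P T hf' hM' hP hT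
    rw [← hJ, if_pos hA, if_pos hA] at hres
    rcases hres with h | ⟨h, h'⟩
    · exact Or.inl h
    · refine Or.inr ⟨h, le_trans ?_ h'⟩
      obtain ⟨X, hX⟩ : ∃ X : ℝ, X = logNorms T / Module.finrank ℚ L := ⟨_, rfl⟩
      have hX0 : 0 ≤ X := by
        rw [hX]
        exact div_nonneg (Finset.sum_nonneg fun _ _ => Real.log_natCast_nonneg _) (Nat.cast_nonneg _)
      rw [← hX]
      have h8 : Real.log (2 + m 0 + m 1) ≤ κ₂ * J := by
        have e1 : (0 : ℝ) ≤ m 1 := Nat.cast_nonneg _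
        have e0 : (0 : ℝ) ≤ m 0 := Nat.cast_nonneg _
        have e2 : (2 : ℝ) + m 0 + m 1 ≤ 2 * ((1 + m 0) * (1 + m 1)) := by nlinarith [mul_nonneg e0 e1]
        have e3 : Real.log 2 ≤ 1 := by
          have := Real.log_two_lt_d9
          linarith
        have h6 := hlogm 1
        have h7 := hlogm 0
        calc Real.log (2 + m 0 + m 1) ≤ Real.log (2 * ((1 + m 0) * (1 + m 1))) := Real.log_le_log (by positivity) e2
          _ = Real.log 2 + (Real.log (1 + m 0) + Real.log (1 + m 1)) := by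
              rw [Real.log_mul (by norm_num) (by positivity), Real.log_mul (by positivity) (by positivity)]
          _ ≤ ρ + (lam * ρ * Real.log b + lam * ρ * Real.log b) := by linarith
          _ = κ₂ * (c * ρ / 16) := by rw [hκ₂]; field_simp; ring
          _ ≤ κ₂ * J := mul_le_mul_of_nonneg_left hJ1 hκ₂0
      rw [div_mul_eq_mul_div, div_le_iff₀ (by positivity)]
      have h9 : Real.log (2 + m 0 + m 1) + X ≤ (1 + J + X) * (1 + κ₂) := by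
        nlinarith [mul_nonneg hκ₂0 hX0, mul_nonneg hκ₂0 hJ0]
      calc c₁ * (Real.log (2 + m 0 + m 1) + X) ≤ c₁ * ((1 + J + X) * (1 + κ₂)) := mul_le_mul_of_nonneg_left h9 hc₁.le
        _ = c₁ * (1 + J + X) * (1 + κ₂) := by ring
  have hT := tot_pos (K := K) (r := r) hrK
  rw [exc_cnt]
  have hsub : cnt b K r N f (fun m => ¬ StrongLS g (c₁ / (1 + κ₂)) c₂ m) ≤ cnt b K r N f (fun m => ¬ GoodM b c I ρ m) := by
    apply cnt_le'
    intro S hS hgm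
    exact hS (hgood _ (hchange S) hgm)
  refine (hsub.trans hcnt).trans ?_
  have htot : tot K r = ∏ l, ((K l).choose (r l) : ℝ) := rfl
  rw [htot] at hT ⊢
  apply mul_le_mul_of_nonneg_right _ hT.le
  apply Real.exp_le_exp.2
  apply neg_le_neg
  have h1 : (r 0 : ℝ) ≤ lam * ρ := by
    have h2 : (2 : ℝ) * r 0 ≤ K 0 := by exact_mod_cast hrK 0
    have h3 := hKρ 0
    have h4 : (0 : ℝ) ≤ r 0 := Nat.cast_nonneg _
    linarith
  calc η * r 0 ≤ η * (lam * ρ) := mul_le_mul_of_nonneg_left h1 hη0.le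
    _ = c / 2 ^ I / 40 * ρ := by rw [hη]; field_simp

end Pool.Agent.NH22.DG.F2
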