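import Pool.Agent.NH22.DG.StmP

/-!
# Project DG: the poles and the height of the invariant over `ℚ`
-/

set_option autoImplicit false

namespace Pool.Agent.NH22.DG.P1

open Pool.Agent.NH22.DG Finset NumberField IsDedekindDomain
open Pool.Agent.TH910.LS

lemma absH_rat (x : ℚ) : absH x = Height.logHeight₁ x := by
  unfold absH
  simp

lemma nat_val (v : FinitePlace ℚ) (n : ℕ) : v.val (n : ℚ) ≤ 1 := by
  have hv : IsNonarchimedean (v ·) := FinitePlace.add_le v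
  exact_mod_cast IsNonarchimedean.apply_intCast_le_one (n := (n : ℤ)) hv

lemma one_le_prod (n : ℕ) (hn : n ≠ 0) (T : Finset (FinitePlace ℚ)) :
    1 ≤ (n : ℝ) * ∏ v ∈ T, v.val (n : ℚ) := by
  classical
  have hx : (n : ℚ) ≠ 0 := by exact_mod_cast hn
  have h1 := prod_abs_eq_one hx
  have hfin := FinitePlace.hasFiniteMulSupport hx
  have h2 : ∏ᶠ v : FinitePlace ℚ, v (n : ℚ) = ∏ v ∈ hfin.toFinset ∪ T, v (n : ℚ) := by
    refine finprod_eq_prod_of_mulSupport_subset _ ?_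
    intro v hv
    simp only [coe_union, Set.mem_union, mem_coe]
    exact Or.inl (hfin.mem_toFinset.2 hv)
  have h3 : ∏ v ∈ hfin.toFinset ∪ T, v (n : ℚ) ≤ ∏ v ∈ T, v.val (n : ℚ) := by
    rw [← Finset.prod_sdiff (Finset.subset_union_right : T ⊆ hfin.toFinset ∪ T)]
    have h4 : ∏ v ∈ (hfin.toFinset ∪ T) \ T, v (n : ℚ) ≤ 1 :=
      Finset.prod_le_one (fun v _ => apply_nonneg v _) (fun v _ => nat_val v n)
    have h5 : 0 ≤ ∏ v ∈ T, v.val (n : ℚ) := Finset.prod_nonneg fun v _ => apply_nonneg v.val _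
    calc (∏ v ∈ (hfin.toFinset ∪ T) \ T, v (n : ℚ)) * ∏ v ∈ T, v (n : ℚ)
        ≤ 1 * ∏ v ∈ T, v (n : ℚ) := mul_le_mul_of_nonneg_right h4 h5
      _ = _ := one_mul _
  have h6 : ∏ w : InfinitePlace ℚ, w (n : ℚ) ^ w.mult = (n : ℝ) := by
    simp
  rw [h6, h2] at h1
  rw [← h1]
  exact mul_le_mul_of_nonneg_left h3 (Nat.cast_nonneg n)

/-- the invariant in lowest terms -/
lemma jinv_eq (m : Fin 2 → ℕ) (h : de m ≠ 0) : 0 < dj m ∧ ∃ N : ℕ, Nat.Coprime N (dj m) ∧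
    jinv (((m 1 : ℕ) : 𝓞 ℚ) : ℚ) (((m 0 : ℕ) : 𝓞 ℚ) : ℚ) = (N : ℚ) / (dj m : ℚ) := by
  have hg : 0 < Nat.gcd (nu m) (de m) := Nat.gcd_pos_of_pos_right _ (Nat.pos_of_ne_zero h)
  have h1 : de m = Nat.gcd (nu m) (de m) * dj m := (Nat.mul_div_cancel' (Nat.gcd_dvd_right _ _)).symm
  have h2 : nu m = Nat.gcd (nu m) (de m) * (nu m / Nat.gcd (nu m) (de m)) :=
    (Nat.mul_div_cancel' (Nat.gcd_dvd_left _ _)).symm
  have h3 : 0 < dj m := by
    rcases Nat.eq_zero_or_pos (dj m) with h0 | h0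
    · rw [h0] at h1; exact absurd (by simpa using h1) h
    · exact h0
  refine ⟨h3, nu m / Nat.gcd (nu m) (de m), Nat.coprime_div_gcd_div_gcd hg, ?_⟩
  have h4 : jinv (((m 1 : ℕ) : 𝓞 ℚ) : ℚ) (((m 0 : ℕ) : 𝓞 ℚ) : ℚ) = (nu m : ℚ) / (de m : ℚ) := by
    unfold jinv nu de
    push_cast
    simp
  rw [h4]
  have e1 : (nu m : ℚ) = (Nat.gcd (nu m) (de m) : ℚ) * ((nu m / Nat.gcd (nu m) (de m) : ℕ) : ℚ) := by
    exact_mod_cast h2
  have e2 : (de m : ℚ) = (Nat.gcd (nu m) (de m) : ℚ) * (dj m : ℚ) := by exact_mod_cast h1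
  have hgq : ((Nat.gcd (nu m) (de m) : ℕ) : ℚ) ≠ 0 := by exact_mod_cast hg.ne'
  rw [e2]
  conv_lhs => rw [e1]
  rw [mul_div_mul_left _ _ hgq]

theorem t_HT : S_HT := by
  intro m h
  obtain ⟨h3, N, hN, hj⟩ := jinv_eq m h
  have key : Real.log (dj m) ≤ Height.logHeight₁ (jinv (((m 1 : ℕ) : 𝓞 ℚ) : ℚ) (((m 0 : ℕ) : 𝓞 ℚ) : ℚ)) := by
    rw [hj, Rat.logHeight₁_eq_log_max]
    have hden : (((N : ℚ) / (dj m : ℚ)).den : ℤ) = (dj m : ℤ) := by
      have := Rat.den_div_eq_of_coprime (a := (N : ℤ)) (b := (dj m : ℤ)) (by exact_mod_cast h3) (by simpa using hN)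
      simpa using this
    have hden' : ((N : ℚ) / (dj m : ℚ)).den = dj m := by exact_mod_cast hden
    rw [hden']
    apply Real.log_le_log (by exact_mod_cast h3)
    exact_mod_cast le_max_right _ _
  have hn : ∀ n : ℕ, absH (((n : ℕ) : 𝓞 ℚ) : ℚ) ≤ Real.log (1 + n) := by
    intro n
    rw [absH_rat]
    have : (((n : ℕ) : 𝓞 ℚ) : ℚ) = (n : ℚ) := by simp
    rw [this, Rat.logHeight₁_eq_log_max]
    apply Real.log_le_log
    · simp
    · simp only [Rat.num_natCast, Int.natAbs_natCast, Rat.den_natCast]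
      have : max n 1 ≤ 1 + n := by omega
      exact_mod_cast this
  exact ⟨by rw [absH_rat]; exact key, key, hn _, hn _⟩

/-- the part composed of the small primes -/
lemma small_part (w n : ℕ) (hn : n ≠ 0) : ∃ s : ℕ, n = s * big w n ∧ ∃ k : ℕ, s ∣ w.factorial ^ k := by
  classical
  refine ⟨∏ p ∈ n.primeFactors.filter (fun p => ¬ w < p), p ^ n.factorization p, ?_, ?_⟩
  · rw [mul_comm]
    unfold big
    rw [Finset.prod_filter_mul_prod_filter_not]
    exact (Nat.prod_factorization_pow_eq_self hn).symm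
  · refine ⟨∑ p ∈ n.primeFactors.filter (fun p => ¬ w < p), n.factorization p, ?_⟩
    rw [← Finset.prod_pow_eq_pow_sum]
    apply Finset.prod_dvd_prod_of_dvd
    intro p hp
    rw [Finset.mem_filter] at hp
    apply pow_dvd_pow_of_dvd
    exact Nat.dvd_factorial (Nat.prime_of_mem_primeFactors hp.1).pos (by omega)

theorem t_PA : S_PA := by
  intro w m h S hS
  obtain ⟨h3, N, -, hj⟩ := jinv_eq m h
  obtain ⟨s, hs, k, hk⟩ := small_part w (dj m) h3.ne'
  have hB : big w (dj m) ≠ 0 := by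
    intro h0
    rw [h0] at hs
    omega
  have hs0 : s ≠ 0 := by
    intro h0
    rw [h0] at hs
    omega
  have h1 : ∀ v ∈ S, Real.log (v.val (jinv (((m 1 : ℕ) : 𝓞 ℚ) : ℚ) (((m 0 : ℕ) : 𝓞 ℚ) : ℚ))) ≤
      - Real.log (v.val (big w (dj m) : ℚ)) := by
    intro v hv
    obtain ⟨a1, a2⟩ := hS v hv
    have b1 : v.val (s : ℚ) = 1 := by
      apply le_antisymm (nat_val v s)
      obtain ⟨t, ht⟩ := hk
      have c1 : v.val (((w.factorial : ℕ) : ℚ) ^ k) = 1 := by rw [map_pow, a1, one_pow]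
      have c2 : (((w.factorial : ℕ) : ℚ) ^ k) = (s : ℚ) * (t : ℚ) := by exact_mod_cast ht
      rw [c2, map_mul] at c1
      rw [← c1]
      exact mul_le_of_le_one_right (apply_nonneg v.val _) (nat_val v t)
    have b2 : v.val (dj m : ℚ) = v.val (big w (dj m) : ℚ) := by
      have : (dj m : ℚ) = (s : ℚ) * (big w (dj m) : ℚ) := by exact_mod_cast hs
      rw [this, map_mul, b1, one_mul]
    have hBq : (big w (dj m) : ℚ) ≠ 0 := by exact_mod_cast hB
    have b3 : 0 < v.val (big w (dj m) : ℚ) := v.val.pos hBq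
    rw [← Real.log_inv]
    apply Real.log_le_log (by linarith)
    rw [hj, map_div₀, b2, div_eq_mul_inv]
    exact mul_le_of_le_one_left (inv_nonneg.2 b3.le) (nat_val v N)
  refine (Finset.sum_le_sum h1).trans ?_
  rw [Finset.sum_neg_distrib, ← Real.log_prod]
  · have h4 := one_le_prod (big w (dj m)) hB S
    have hBr : (0 : ℝ) < (big w (dj m) : ℝ) := by exact_mod_cast Nat.pos_of_ne_zero hB
    have h5 : 0 < ∏ v ∈ S, v.val (big w (dj m) : ℚ) := by
      apply Finset.prod_pos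
      intro v _
      exact v.val.pos (by exact_mod_cast hB)
    have h6 := Real.log_le_log one_pos h4
    rw [Real.log_one, Real.log_mul hBr.ne' h5.ne'] at h6
    linarith
  · intro v _
    exact (v.val.pos (by exact_mod_cast hB)).ne'

end Pool.Agent.NH22.DG.P1
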