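import Pool.Agent.NH22.DG.StmP

/-!
# Project DG, part PB: the bad places above the poles
-/

set_option autoImplicit false
set_option linter.style.haveILetI false

namespace Pool.Agent.NH22.DG.P2

open Pool.Agent.NH22.DG
open Finset NumberField IsDedekindDomain
open Pool.Agent.TH942 Pool.Agent.TH910.LS Pool.Agent.Y725.LS TH951.LS

/-- at places of good reduction the invariant is integral -/
theorem good_j {L : Type} [Field L] [NumberField L] (w : FinitePlace L) (W : WeierstrassCurve L)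
    [W.IsElliptic] (h : GoodRed w.val W) : w.val W.j ≤ 1 := by
  obtain ⟨C, h1, h2, h3, h4, h6, h7⟩ := h
  have hadd : ∀ x y : L, w.val x ≤ 1 → w.val y ≤ 1 → w.val (x + y) ≤ 1 := fun x y hx hy =>
    le_trans (w.add_le x y) (max_le hx hy)
  have hmul : ∀ x y : L, w.val x ≤ 1 → w.val y ≤ 1 → w.val (x * y) ≤ 1 := fun x y hx hy => by
    rw [map_mul]; exact mul_le_one₀ hx (w.val.nonneg _) hy
  have hpow : ∀ (x : L) (n : ℕ), w.val x ≤ 1 → w.val (x ^ n) ≤ 1 := fun x n hx => by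
    rw [map_pow]; exact pow_le_one₀ (w.val.nonneg _) hx
  have hneg : ∀ x : L, w.val x ≤ 1 → w.val (-x) ≤ 1 := fun x hx => by
    rwa [AbsoluteValue.map_neg]
  have hnat : ∀ n : ℕ, w.val (n : L) ≤ 1 := by
    intro n
    induction n with
    | zero => simp
    | succ n ih => rw [Nat.cast_succ]; exact hadd _ _ ih (by simp)
  have hc : w.val (C • W).c₄ ≤ 1 := by
    have hb2 : w.val (C • W).b₂ ≤ 1 := by
      rw [WeierstrassCurve.b₂]
      exact hadd _ _ (hpow _ _ h1) (hmul _ _ (hnat 4) h2)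
    have hb4 : w.val (C • W).b₄ ≤ 1 := by
      rw [WeierstrassCurve.b₄]
      exact hadd _ _ (hmul _ _ (hnat 2) h4) (hmul _ _ h1 h3)
    rw [WeierstrassCurve.c₄, sub_eq_add_neg]
    exact hadd _ _ (hpow _ _ hb2) (hneg _ (hmul _ _ (hnat 24) hb4))
  have hj : (C • W).j * (C • W).Δ = (C • W).c₄ ^ 3 := by
    rw [WeierstrassCurve.j, ← (C • W).coe_Δ', mul_comm, ← mul_assoc, Units.mul_inv, one_mul]
  rw [← WeierstrassCurve.variableChange_j W C]
  have h8 : w.val (C • W).j = w.val (C • W).c₄ ^ 3 := by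
    rw [← map_pow, ← hj, map_mul, h7, mul_one]
  rw [h8]
  exact pow_le_one₀ (w.val.nonneg _) hc

/-- a place above a prime -/
theorem exists_place (L : Type) [Field L] [NumberField L] {p : ℕ} (hp : p.Prime) :
    ∃ w : FinitePlace L, w.val (p : L) < 1 ∧ (∀ n : ℕ, ¬ p ∣ n → w.val (n : L) = 1) ∧
      p ≤ Ideal.absNorm w.maximalIdeal.asIdeal := by
  have hpr : Prime (p : ℤ) := Nat.prime_iff_prime_int.1 hp
  have hnu : ¬ IsUnit ((p : ℕ) : 𝓞 L) := by
    intro hu
    have h1 : IsUnit (Algebra.norm ℤ ((p : ℕ) : 𝓞 L)) := hu.map _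
    have h2 : ((p : ℕ) : 𝓞 L) = algebraMap ℤ (𝓞 L) (p : ℤ) := by simp
    rw [h2, Algebra.norm_algebraMap] at h1
    have h3 : IsUnit (p : ℤ) := by
      rcases Nat.eq_zero_or_pos (Module.finrank ℤ (𝓞 L)) with h0 | h0
      · exfalso
        have := RingOfIntegers.rank L
        rw [this] at h0
        exact (Module.finrank_pos (R := ℚ) (M := L)).ne' h0
      · exact (isUnit_pow_iff h0.ne').1 h1
    exact hpr.not_isUnit h3
  obtain ⟨M, hM, hpM⟩ := exists_max_ideal_of_mem_nonunits hnu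
  have hp0 : ((p : ℕ) : 𝓞 L) ≠ 0 := by
    exact_mod_cast hp.ne_zero
  have hM0 : M ≠ ⊥ := by
    rintro rfl
    exact hp0 (by simpa using hpM)
  let P : HeightOneSpectrum (𝓞 L) := ⟨M, hM.isPrime, hM0⟩
  have hnorm : ∀ x : 𝓞 L, (FinitePlace.mk P).val (x : L) ≤ 1 := fun x => by
    have := FinitePlace.norm_le_one L P x
    exact this
  have hlt : ∀ x : 𝓞 L, (FinitePlace.mk P).val (x : L) < 1 ↔ x ∈ M := fun x =>
    FinitePlace.norm_lt_one_iff_mem L P x
  refine ⟨FinitePlace.mk P, ?_, ?_, ?_⟩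
  · have := (hlt ((p : ℕ) : 𝓞 L)).2 hpM
    simpa using this
  · intro n hn
    have h1 : ¬ ((n : ℕ) : 𝓞 L) ∈ M := by
      intro hnM
      have hcop : IsCoprime (p : ℤ) (n : ℤ) :=
        Nat.isCoprime_iff_coprime.2 ((Nat.Prime.coprime_iff_not_dvd hp).2 hn)
      obtain ⟨a, b, hab⟩ := hcop
      have h2 : (a : 𝓞 L) * ((p : ℕ) : 𝓞 L) + (b : 𝓞 L) * ((n : ℕ) : 𝓞 L) = 1 := by
        exact_mod_cast congrArg (Int.cast (R := 𝓞 L)) hab
      apply hM.ne_top
      rw [Ideal.eq_top_iff_one, ← h2]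
      exact M.add_mem (M.mul_mem_left _ hpM) (M.mul_mem_left _ hnM)
    have h2 := hnorm ((n : ℕ) : 𝓞 L)
    have h3 := fun h => h1 ((hlt ((n : ℕ) : 𝓞 L)).1 h)
    have h4 : (FinitePlace.mk P).val ((((n : ℕ) : 𝓞 L)) : L) = 1 := le_antisymm h2 (not_lt.1 h3)
    simpa using h4
  · rw [FinitePlace.maximalIdeal_mk]
    have h1 : Ideal.absNorm M ≠ 1 := by
      rw [Ne, Ideal.absNorm_eq_one_iff]; exact hM.ne_top
    have h0 : Ideal.absNorm M ≠ 0 := by
      rw [Ne, Ideal.absNorm_eq_zero_iff]; exact hM0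
    have hdvd : Ideal.absNorm M ∣ p ^ Module.finrank ℤ (𝓞 L) := by
      have h5 : Ideal.absNorm M ∣ Ideal.absNorm (Ideal.span {((p : ℕ) : 𝓞 L)}) :=
        Ideal.absNorm_dvd_absNorm_of_le ((Ideal.span_singleton_le_iff_mem _).2 hpM)
      rw [Ideal.absNorm_span_singleton] at h5
      have h2 : ((p : ℕ) : 𝓞 L) = algebraMap ℤ (𝓞 L) (p : ℤ) := by simp
      rw [h2, Algebra.norm_algebraMap, Int.natAbs_pow, Int.natAbs_natCast] at h5
      exact h5
    obtain ⟨k, -, hk⟩ := (Nat.dvd_prime_pow hp).1 hdvd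
    have hk0 : k ≠ 0 := by
      rintro rfl
      exact h1 (by simpa using hk)
    show p ≤ Ideal.absNorm M
    rw [hk]
    exact Nat.le_self_pow hk0 p

theorem t_PB : S_PB := by
  classical
  intro w m hde L _ _ _
  have hne : Nonempty (FinitePlace L) := ⟨(exists_place L Nat.prime_two).choose⟩
  have hex : ∀ p : ℕ, p.Prime → ∃ w : FinitePlace L, w.val (p : L) < 1 ∧
      (∀ n : ℕ, ¬ p ∣ n → w.val (n : L) = 1) ∧ p ≤ Ideal.absNorm w.maximalIdeal.asIdeal :=
    fun p hp => exists_place L hp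
  choose! f hf1 hf2 hf3 using hex
  set Ps : Finset ℕ := (dj m).primeFactors.filter (fun p => w < p) with hPs
  have hpr : ∀ p ∈ Ps, p.Prime := fun p hp => Nat.prime_of_mem_primeFactors (mem_filter.1 hp).1
  have hinj : Set.InjOn f (Ps : Set ℕ) := by
    intro p hp q hq hpq
    by_contra hne'
    have hp' := hpr p hp
    have hq' := hpr q hq
    have h1 := hf2 p hp' q (fun h => hne' ((Nat.prime_dvd_prime_iff_eq hp' hq').1 h))
    have h2 := hf1 q hq'
    rw [← hpq, h1] at h2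
    exact lt_irrefl _ h2
  refine ⟨Ps.image f, ?_, ?_⟩
  · intro v hv
    obtain ⟨p, hp, rfl⟩ := mem_image.1 hv
    have hp' := hpr p hp
    left
    intro hg
    have e1 : algebraMap ℚ L ((((m 1 : ℕ) : 𝓞 ℚ)) : ℚ) = ((m 1 : ℕ) : L) := by simp
    have e0 : algebraMap ℚ L ((((m 0 : ℕ) : 𝓞 ℚ)) : ℚ) = ((m 0 : ℕ) : L) := by simp
    rw [e1, e0] at hg
    have hdL : (4 * ((m 1 : ℕ) : L) ^ 3 + 27 * ((m 0 : ℕ) : L) ^ 2) = ((de m : ℕ) : L) := by
      simp [de]
    have hd0 : ((de m : ℕ) : L) ≠ 0 := by exact_mod_cast hde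
    have hell : (sw ((m 1 : ℕ) : L) ((m 0 : ℕ) : L)).IsElliptic := sw_ell (by rw [hdL]; exact hd0)
    have hj1 := good_j (f p) (sw ((m 1 : ℕ) : L) ((m 0 : ℕ) : L)) hg
    rw [jinv_eq _ _ hell, jinv, hdL] at hj1
    have hg0 : 0 < Nat.gcd (nu m) (de m) := Nat.gcd_pos_of_pos_right _ (Nat.pos_of_ne_zero hde)
    obtain ⟨n', hn'⟩ := Nat.gcd_dvd_left (nu m) (de m)
    have hd' : de m = Nat.gcd (nu m) (de m) * dj m := (Nat.mul_div_cancel' (Nat.gcd_dvd_right _ _)).symm
    have hcop : Nat.Coprime n' (dj m) := by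
      have h := Nat.coprime_div_gcd_div_gcd (m := nu m) (n := de m) hg0
      have h1 : nu m / Nat.gcd (nu m) (de m) = n' := Nat.div_eq_of_eq_mul_right hg0 hn'
      rw [h1] at h
      exact h
    have hnuL : (6912 * ((m 1 : ℕ) : L) ^ 3) = ((nu m : ℕ) : L) := by simp [nu]
    have hdj0 : ((dj m : ℕ) : L) ≠ 0 := by
      intro h0
      apply hd0
      rw [hd', Nat.cast_mul, h0, mul_zero]
    have hjd : (6912 * ((m 1 : ℕ) : L) ^ 3 / ((de m : ℕ) : L)) * ((dj m : ℕ) : L) = (n' : L) := by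
      have hgL : ((Nat.gcd (nu m) (de m) : ℕ) : L) ≠ 0 := by exact_mod_cast hg0.ne'
      have h1 : ((nu m : ℕ) : L) = ((Nat.gcd (nu m) (de m) : ℕ) : L) * (n' : L) := by
        rw [← Nat.cast_mul]; exact congrArg _ hn'
      have h2 : ((de m : ℕ) : L) = ((Nat.gcd (nu m) (de m) : ℕ) : L) * ((dj m : ℕ) : L) := by
        rw [← Nat.cast_mul]; exact congrArg _ hd'
      rw [hnuL, h2, h1]
      field_simp
    have hpd : p ∣ dj m := Nat.dvd_of_mem_primeFactors (mem_filter.1 hp).1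
    have hpn : ¬ p ∣ n' := fun h => by
      have := Nat.dvd_gcd h hpd
      rw [hcop] at this
      exact hp'.one_lt.ne' (Nat.dvd_one.1 this)
    have hv1 : (f p).val (n' : L) = 1 := hf2 p hp' n' hpn
    have hv2 : (f p).val ((dj m : ℕ) : L) < 1 := by
      obtain ⟨k, hk⟩ := hpd
      rw [hk, Nat.cast_mul, map_mul]
      have h3 : (f p).val (k : L) ≤ 1 := by
        by_cases hk' : p ∣ k
        · have hnat : ∀ n : ℕ, (f p).val (n : L) ≤ 1 := by
            intro n
            induction n with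
            | zero => simp
            | succ n ih =>
              rw [Nat.cast_succ]
              exact le_trans ((f p).add_le _ _) (max_le ih (by simp))
          exact hnat k
        · exact (hf2 p hp' k hk').le
      calc (f p).val (p : L) * (f p).val (k : L) ≤ (f p).val (p : L) * 1 :=
            mul_le_mul_of_nonneg_left h3 ((f p).val.nonneg _)
        _ < 1 := by rw [mul_one]; exact hf1 p hp'
    have h4 := congrArg (f p).val hjd
    rw [map_mul, hv1] at h4
    have h5 : (f p).val (6912 * ((m 1 : ℕ) : L) ^ 3 / ((de m : ℕ) : L)) * (f p).val ((dj m : ℕ) : L) < 1 :=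
      lt_of_le_of_lt (mul_le_of_le_one_left ((f p).val.nonneg _) hj1) hv2
    rw [h4] at h5
    exact lt_irrefl _ h5
  · rw [sum_image hinj, rbig, ← hPs]
    have hcast : (((∏ p ∈ Ps, p : ℕ) : ℕ) : ℝ) = ∏ p ∈ Ps, (p : ℝ) := by push_cast; rfl
    rw [hcast, Real.log_prod (fun p hp => by exact_mod_cast (hpr p hp).ne_zero)]
    refine sum_le_sum fun p hp => ?_
    exact Real.log_le_log (by exact_mod_cast (hpr p hp).pos) (by exact_mod_cast hf3 p (hpr p hp))

end Pool.Agent.NH22.DG.P2
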