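import Pool.Agent.NH22.DG.C1
import Pool.Agent.NH22.DG.C2
import Pool.Agent.NH22.DG.C3
import Pool.Agent.NH22.DG.C4
import Pool.Agent.NH22.DG.C5
import Pool.Agent.NH22.DG.C6
import Pool.Agent.NH22.DG.C7
import Pool.Agent.NH22.DG.P1
import Pool.Agent.NH22.DG.P2
import Pool.Agent.NH22.DG.F2
import Pool.Agent.NH22.BS.A1

/-!
# Project DG: all statements proved
-/

set_option autoImplicit false

namespace Pool.Agent.NH22.DG.All

open Pool.Agent.NH22.DG Pool.Agent.NH22.DG.F2 Finset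
open Pool.Agent.Y57.FD (digit change exceptions)

theorem main (b g : ℕ) (lam : ℝ) (hb : 2 ≤ b) (hg : 0 < g) (hlam : 0 < lam) :
    ∃ c₁ η : ℝ, 0 < c₁ ∧ 0 < η ∧ ∃ c₂ r₀ : ℕ, ∀ (K r N : Fin 2 → ℕ) (f : Fin 2 → ℕ → ℕ), (∀ l, 2 * r l ≤ K l) → (∀ l, r₀ ≤ r l) →
    (∀ l l', (K l : ℝ) ≤ lam * r l') → (∀ l, N l < b ^ K l) → (∀ l j, f l j < b ∧ f l j ≠ digit b j (N l)) →
    (exceptions b K r N f (StrongLS g c₁ c₂) : ℝ) ≤ Real.exp (-(η * r 0)) * ∏ l, ((K l).choose (r l) : ℝ) :=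
  have hC : S_CNT := C1.t_CNT
  have hV : S_VAL := C3.t_VAL hC C2.t_CUB
  have hS : S_SOL := C5.t_SOL C4.t_SQ
  have hM : S_MS := C7.t_MS hC hS C6.t_RADC C2.t_DIV
  have hH : S_HT := P1.t_HT
  fin hV hM (t_SZ P1.t_PA P2.t_PB hH) hH b g lam hb hg hlam

end Pool.Agent.NH22.DG.All
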