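import Pool.Agent.NH22.DG.Stm
import Pool.Agent.NH22.BS.A1

/-!
# Project DG: residue classes over the changes of digits (helper17, after helper81's NH22/BS/A3)
-/

set_option autoImplicit false

namespace Pool.Agent.NH22.DG.C1

open Finset Filter
open Pool.Agent.NH22.DG
open Pool.Agent.TH894.NE
open Pool.Agent.TH894.ND
open Pool.Agent.Y57.FD (digit change exceptions)

theorem t_CNT : S_CNT := by
  classical
  intro b e A hb he hA
  obtain ⟨s, E, hs, hE, x₁, hx₁⟩ := par_bad b 1 hb le_rfl (e / 3) (by positivity)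
  obtain ⟨Z', hZ⟩ : ∃ Z', Z' = b ^ (2 * s) := ⟨_, rfl⟩
  obtain ⟨L, hL⟩ : ∃ L, L = (b * b).factorial := ⟨_, rfl⟩
  have hsr : (1 : ℝ) ≤ s := by exact_mod_cast hs
  have hEr : (1 : ℝ) ≤ E := by exact_mod_cast hE
  obtain ⟨d₀, hd₀⟩ : ∃ d₀ : ℝ, d₀ = 1 / (((b * b).factorial : ℝ) * ((b ^ (2 * s) : ℕ) : ℝ)) ^ 2 := ⟨_, rfl⟩
  have hd₀0 : 0 < d₀ := by
    rw [hd₀]
    have h1 : (0 : ℝ) < ((b * b).factorial : ℝ) := by exact_mod_cast Nat.factorial_pos _
    have h2 : (0 : ℝ) < ((b ^ (2 * s) : ℕ) : ℝ) := by exact_mod_cast Nat.pow_pos (by omega)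
    positivity
  obtain ⟨c₁, hc₁⟩ : ∃ c₁ : ℝ, c₁ = d₀ / (16 * s * E) := ⟨_, rfl⟩
  have hc₁0 : 0 < c₁ := by rw [hc₁]; positivity
  obtain ⟨κ, hκ⟩ : ∃ κ : ℝ, κ = A + 2 := ⟨_, rfl⟩
  have hκ0 : 0 < κ := by rw [hκ]; positivity
  obtain ⟨c, hc⟩ : ∃ c : ℝ, c = min (c₁ / (4 * κ)) (1 / (16 * s)) := ⟨_, rfl⟩
  have hc0 : 0 < c := by rw [hc]; exact lt_min (by positivity) (by positivity)
  have hcc1 : c ≤ c₁ / (4 * κ) := by rw [hc]; exact min_le_left _ _
  have hcc2 : c ≤ 1 / (16 * s) := by rw [hc]; exact min_le_right _ _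
  have hev : ∀ᶠ r : ℕ in atTop, (4 * (r : ℝ) + 2) ≤ Real.exp (c₁ / 2 * r) := by
    have h1 : Tendsto (fun y : ℝ => Real.exp (c₁ / 2 * y) / y ^ 1) atTop atTop :=
      tendsto_exp_mul_div_rpow_atTop 1 (c₁ / 2) (by positivity) |>.congr' (by
        filter_upwards [eventually_gt_atTop 0] with y hy
        rw [Real.rpow_one, pow_one])
    have h2 := (h1.comp tendsto_natCast_atTop_atTop).eventually (eventually_ge_atTop (6 : ℝ))
    filter_upwards [h2, eventually_ge_atTop 1] with r hr hr1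
    have h3 : (1 : ℝ) ≤ r := by exact_mod_cast hr1
    simp only [Function.comp_apply, pow_one] at hr
    rw [le_div_iff₀ (by linarith)] at hr
    linarith
  obtain ⟨r₀, hr₀⟩ := eventually_atTop.1 hev
  obtain ⟨r₁, hr₁⟩ : ∃ r₁, r₁ = r₀ + 8 * s + 8 := ⟨_, rfl⟩
  obtain ⟨x₂, hx₂⟩ := exists_nat_ge (Real.exp (c * r₁))
  have hev3 : ∀ᶠ x : ℕ in atTop, (2 : ℝ) ≤ (x : ℝ) ^ (e / 3) :=
    ((tendsto_rpow_atTop (by positivity : 0 < e / 3)).comp tendsto_natCast_atTop_atTop).eventually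
      (eventually_ge_atTop (2 : ℝ))
  obtain ⟨x₃, hx₃⟩ := eventually_atTop.1 hev3
  refine ⟨c, hc0, x₁ + x₂ + x₃ + 2, fun K r N f x hx hfam q hq1 hqx hqp Z hZb => ?_⟩
  obtain ⟨hrK, hxr', hN, hf⟩ := hfam
  have hx2r : (2 : ℝ) ≤ x := by exact_mod_cast (by omega : 2 ≤ x)
  have hx0 : (0 : ℝ) < x := by linarith
  have hx1' : (1 : ℝ) ≤ x := by linarith
  have hxr : ∀ i, Real.log x ≤ c * r i := by
    intro i
    have := Real.log_le_log hx0 (hxr' i)
    rwa [Real.log_exp] at this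
  obtain ⟨n, hn1, hn2, hn3, hn4⟩ := hx₁ x (by omega)
  rw [← hZ] at hn3 hn4
  -- the numbers r i
  have hrn : ∀ i, r₁ ≤ r i := by
    intro i
    have h1 : Real.exp (c * r₁) ≤ x := by
      refine hx₂.trans ?_
      exact_mod_cast (by omega : x₂ ≤ x)
    have h2 : c * r₁ ≤ Real.log x := by
      rw [Real.le_log_iff_exp_le hx0]
      exact h1
    have h3 : c * r₁ ≤ c * r i := h2.trans (hxr i)
    exact_mod_cast le_of_mul_le_mul_left h3 hc0
  have hT : ∀ i, n ≤ K i / (2 * s) := by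
    intro i
    have hrr : (r₁ : ℝ) ≤ r i := by exact_mod_cast hrn i
    have hKr : (2 : ℝ) * r i ≤ K i := by exact_mod_cast hrK i
    have hTr : (K i : ℝ) ≤ 4 * s * (K i / (2 * s) : ℕ) := by
      have h1 : K i < 2 * s * (K i / (2 * s) + 1) := Nat.lt_mul_div_succ (K i) (by omega)
      have h2 : (K i : ℝ) < 2 * s * ((K i / (2 * s) : ℕ) + 1) := by exact_mod_cast h1
      have h3 : (r₁ : ℝ) = r₀ + 8 * s + 8 := by rw [hr₁]; push_cast; ring
      have h4 : (0 : ℝ) ≤ r₀ := Nat.cast_nonneg _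
      nlinarith
    have h1 : 4 * Real.log x ≤ r i / (4 * s) := by
      calc 4 * Real.log x ≤ 4 * (c * r i) := mul_le_mul_of_nonneg_left (hxr i) (by positivity)
        _ ≤ 4 * ((1 / (16 * s)) * r i) := by gcongr
        _ = r i / (4 * s) := by field_simp; ring
    have h2 : (r i : ℝ) / (2 * s) ≤ (K i / (2 * s) : ℕ) := by
      rw [div_le_iff₀ (by positivity)]
      nlinarith
    have h3 : (r₁ : ℝ) = r₀ + 8 * s + 8 := by rw [hr₁]; push_cast; ring
    have h4 : (0 : ℝ) ≤ r₀ := Nat.cast_nonneg _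
    have h5 : (2 : ℝ) ≤ r i / (4 * s) := by
      rw [le_div_iff₀ (by positivity)]
      linarith
    have h6 : (r i : ℝ) / (2 * s) = r i / (4 * s) + r i / (4 * s) := by
      field_simp
      ring
    have hn2' : (n : ℝ) ≤ 4 * Real.log x + 2 := by
      have := hn2
      rw [Nat.cast_one, mul_one] at this
      exact this
    have h7 : (n : ℝ) ≤ (K i / (2 * s) : ℕ) := by linarith
    exact_mod_cast h7
  have hLQ : Nat.Coprime L q := by
    rw [hL]
    refine Nat.Coprime.symm (Nat.coprime_of_dvd ?_)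
    intro p hp hpq hpL
    have h1 := (hp.dvd_factorial).1 hpL
    have h2 := hqp p hp hpq
    omega
  have hbQ : Nat.Coprime b q := by
    apply Nat.Coprime.coprime_dvd_left _ hLQ
    rw [hL]
    exact Nat.dvd_factorial (by omega) (by nlinarith)
  have hZQ : Nat.Coprime Z' q := by rw [hZ]; exact hbQ.pow_left _
  obtain ⟨D, hD⟩ : ∃ D, D = x ^ (2 * 1) := ⟨_, rfl⟩
  rw [← hD] at hn3
  obtain ⟨Bs, hBs⟩ : ∃ Bs : Fin 2 → Finset ℕ, Bs = fun i => (Fr q D).filter (fun k => 4 * (E * (Ig L Z' q (K i / (2 * s)) k).card) < K i / (2 * s)) := ⟨_, rfl⟩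
  have hZ2 : 2 ≤ Z' := by
    rw [hZ]
    calc 2 ≤ b := hb
      _ = b ^ 1 := (pow_one b).symm
      _ ≤ b ^ (2 * s) := Nat.pow_le_pow_right (by omega) (by omega)
  have hBc : ∀ i, ((Bs i).card : ℝ) ≤ (x : ℝ) ^ (e / 3) := by
    intro i
    rw [hBs]
    exact (bad_count L Z' E n q D (K i / (2 * s)) hZ2 hE hq1 hn1 (hT i) hn3 hLQ hZQ).trans hn4
  obtain ⟨ε, hε⟩ : ∃ ε : ℝ, ε = (x : ℝ) ^ (-κ) := ⟨_, rfl⟩
  have hε0 : 0 ≤ ε := by rw [hε]; positivity
  have hε1 : ε ≤ 1 := by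
    rw [hε]
    apply Real.rpow_le_one_of_one_le_of_nonpos hx1'
    linarith
  have hFr : ∀ k ∈ range q, k ∈ Fr q D := by
    intro k hk
    unfold Fr
    rw [mem_filter]
    refine ⟨hk, q, hq1, ?_, Dvd.intro_left k rfl⟩
    rw [hD]
    calc q ≤ x := hqx
      _ = x ^ 1 := (pow_one x).symm
      _ ≤ x ^ (2 * 1) := Nat.pow_le_pow_right (by omega) (by omega)
  have hgood : ∀ i, ∀ k ∈ range q, k ∉ Bs i → ‖∑ S ∈ powersetCard (r i) (range (K i)), ee ((k : ℝ) * (change b (K i) (N i) (f i) S : ℕ) / q)‖ ≤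
      ε * ((powersetCard (r i) (range (K i))).card : ℝ) := by
    intro i k hk hkB
    have hrr : r₁ ≤ r i := hrn i
    have hk2 : K i / (2 * s) ≤ 4 * (E * (Ig (b * b).factorial (b ^ (2 * s)) q (K i / (2 * s)) k).card) := by
      rw [← hL, ← hZ]
      by_contra hcon
      push Not at hcon
      apply hkB
      rw [hBs, mem_filter]
      exact ⟨hFr k hk, hcon⟩
    refine (good_sum b s E hb hs hE d₀ c₁ hd₀ hc₁ (r i) (K i) (by omega) (hrK i) (by omega) (hr₀ (r i) (by omega)) (N i) (hN i) (f i) (hf i)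
      q hq1 k hk2).trans ?_
    apply mul_le_mul_of_nonneg_right _ (Nat.cast_nonneg _)
    rw [hε, Real.rpow_def_of_pos hx0]
    apply Real.exp_le_exp.2
    have h1 : κ * Real.log x ≤ c₁ / 2 * r i := by
      calc κ * Real.log x ≤ κ * (c * r i) := mul_le_mul_of_nonneg_left (hxr i) (by positivity)
        _ ≤ κ * ((c₁ / (4 * κ)) * r i) := by gcongr
        _ = c₁ / 4 * r i := by field_simp
        _ ≤ c₁ / 2 * r i := by
            apply mul_le_mul_of_nonneg_right _ (Nat.cast_nonneg _)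
            linarith
    linarith
  -- the indicator function
  have hq0 : (0 : ℝ) < (q : ℝ) := by exact_mod_cast hq1
  obtain ⟨H, hH⟩ : ∃ H : (Fin 2 → ℕ) → ℝ, H = fun n => if (fun i => n i % q) ∈ Z then 1 else 0 := ⟨_, rfl⟩
  have hHQ : Per q H := by
    intro m
    rw [hH]
    have h1 : (fun i => (m i % q) % q) = fun i => m i % q := by
      funext i
      rw [Nat.mod_mod]
    simp only [Nat.mod_mod]
  have hH01 : ∀ n, 0 ≤ H n := by
    intro n
    rw [hH]
    simp only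
    split_ifs
    · exact zero_le_one
    · exact le_rfl
  have hsumH : ∑ n ∈ box 2 q, H n = (Z.card : ℝ) := by
    have h1 : ∀ n ∈ box 2 q, H n = if n ∈ Z then 1 else 0 := by
      intro n hn
      have h2 : (fun i => n i % q) = n := by
        funext i
        exact Nat.mod_eq_of_lt (mem_box.1 hn i)
      rw [hH]
      simp only
      rw [h2]
    rw [sum_congr rfl h1, ← sum_filter, filter_mem_eq_inter, inter_eq_right.2 hZb, sum_const,
      nsmul_eq_mul, mul_one]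
  have hmean : mean 2 q H = (Z.card : ℝ) / (q : ℝ) ^ 2 := by
    unfold mean
    rw [hsumH, one_div, inv_mul_eq_div]
  obtain ⟨W, hW⟩ : ∃ W : ℝ, W = (Z.card : ℝ) / (q : ℝ) ^ 2 := ⟨_, rfl⟩
  have hW0 : 0 ≤ W := by rw [hW]; positivity
  have hWq : W * (q : ℝ) ^ 2 = Z.card := by
    rw [hW]
    field_simp
  have hZc : (Z.card : ℝ) ≤ (q : ℝ) ^ 2 := by
    have h1 := card_le_card hZb
    rw [card_box] at h1
    exact_mod_cast h1
  have hcfd : ∀ k ∈ box 2 q, (∃ i, k i ≠ 0) → ‖cfd q H k‖ ≤ W := by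
    intro k _ _
    unfold cfd
    rw [norm_mul, norm_div, norm_one, norm_pow, Complex.norm_natCast]
    have h1 : ‖∑ n ∈ box 2 q, (H n : ℂ) * ch' q k n‖ ≤ Z.card := by
      refine (norm_sum_le _ _).trans ?_
      rw [← hsumH]
      refine sum_le_sum fun n _ => ?_
      rw [norm_mul, ch'_norm, mul_one, Complex.norm_real, Real.norm_eq_abs, abs_of_nonneg (hH01 n)]
    rw [hW, one_div, inv_mul_eq_div]
    gcongr
  have hmabs : mean 2 q (fun n => |H n|) ≤ W := by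
    have h1 : (fun n => |H n|) = H := by
      funext n
      exact abs_of_nonneg (hH01 n)
    rw [h1, hmean, hW]
  have havg := Pool.Agent.NH22.BS.A1.t_AVG 2 (Finset ℕ) (fun i => powersetCard (r i) (range (K i)))
    (fun i S => change b (K i) (N i) (f i) S) q hq1 H hHQ (range q) Bs
    (by
      intro k hk hkF
      obtain ⟨i₀, hi₀⟩ := hkF
      exact absurd (mem_range.2 (mem_box.1 hk i₀)) hi₀)
    ε hε0 hε1 hgood ((x : ℝ) ^ (e / 3)) hBc W W hW0 hcfd hmabs
  have hcard : ∏ i, (((powersetCard (r i) (range (K i))).card : ℕ) : ℝ) = tot K r := by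
    unfold tot
    exact prod_congr rfl fun i _ => by rw [card_powersetCard, card_range]
  rw [hcard, hmean, ← hW, card_range] at havg
  have hT0 : 0 ≤ tot K r := by
    unfold tot
    exact prod_nonneg fun i _ => Nat.cast_nonneg _
  have hcnt : cnt b K r N f (fun m => (fun i => m i % q) ∈ Z) =
      ∑ S ∈ Fintype.piFinset (fun i => powersetCard (r i) (range (K i))),
        H (fun i => change b (K i) (N i) (f i) (S i)) := by
    unfold cnt
    rw [hH, card_filter]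
    push_cast
    refine sum_congr rfl fun S _ => ?_
    congr
  have h1 := (abs_le.1 havg).2
  rw [← hcnt] at h1
  have hpow : ((x : ℝ) ^ (e / 3)) ^ 2 = (x : ℝ) ^ (2 * e / 3) := by
    rw [← Real.rpow_natCast, ← Real.rpow_mul hx0.le]
    congr 1
    push_cast
    ring
  have h2 : 1 + (x : ℝ) ^ (2 * e / 3) ≤ (x : ℝ) ^ e := by
    have h3 := hx₃ x (by omega)
    have h4 : (1 : ℝ) ≤ (x : ℝ) ^ (2 * e / 3) := Real.one_le_rpow hx1' (by positivity)
    have h5 : (x : ℝ) ^ e = (x : ℝ) ^ (e / 3) * (x : ℝ) ^ (2 * e / 3) := by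
      rw [← Real.rpow_add hx0]
      congr 1
      ring
    rw [h5]
    nlinarith
  have h3 : W * ((q : ℝ) ^ 2 * ε) ≤ (x : ℝ) ^ (-A) := by
    have h4 : (q : ℝ) ^ 2 ≤ (x : ℝ) ^ (2 : ℝ) := by
      rw [Real.rpow_two]
      have : (q : ℝ) ≤ x := by exact_mod_cast hqx
      gcongr
    calc W * ((q : ℝ) ^ 2 * ε) = Z.card * ε := by rw [← hWq]; ring
      _ ≤ (x : ℝ) ^ (2 : ℝ) * ε := mul_le_mul_of_nonneg_right (hZc.trans h4) hε0
      _ = (x : ℝ) ^ (-A) := by
          rw [hε, ← Real.rpow_add hx0]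
          congr 1
          rw [hκ]
          ring
  rw [hpow] at h1
  rw [← hW]
  calc cnt b K r N f (fun m => (fun i => m i % q) ∈ Z)
      ≤ W * tot K r + (W * (x : ℝ) ^ (2 * e / 3) + W * ((q : ℝ) ^ 2 * ε)) * tot K r := by linarith
    _ = (W * (1 + (x : ℝ) ^ (2 * e / 3)) + W * ((q : ℝ) ^ 2 * ε)) * tot K r := by ring
    _ ≤ (W * (x : ℝ) ^ e + (x : ℝ) ^ (-A)) * tot K r := by
        apply mul_le_mul_of_nonneg_right _ hT0
        exact add_le_add (mul_le_mul_of_nonneg_left h2 hW0) h3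

end Pool.Agent.NH22.DG.C1
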