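import Pool.Agent.NH22.BS.Stm

/-!
# Project DG: the strong inequality of Lang and Silverman in sparse families, statements

`m : Fin 2 → ℕ` stands for the curve `y ^ 2 = x ^ 3 + m 1 * x + m 0`.
-/

set_option autoImplicit false

namespace Pool.Agent.NH22.DG

open Finset
open Pool.Agent.TH894.NE (mean box Per cfd)
open Pool.Agent.Y57.FD (digit change exceptions)

/-- numerator of the invariant -/
def nu (m : Fin 2 → ℕ) : ℕ := 6912 * m 1 ^ 3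

/-- denominator of the invariant -/
def de (m : Fin 2 → ℕ) : ℕ := 4 * m 1 ^ 3 + 27 * m 0 ^ 2

/-- the denominator of the invariant in lowest terms -/
def dj (m : Fin 2 → ℕ) : ℕ := de m / Nat.gcd (nu m) (de m)

/-- the part of `n` composed of the primes greater than `w` -/
def big (w n : ℕ) : ℕ := ∏ p ∈ n.primeFactors.filter (fun p => w < p), p ^ n.factorization p

/-- the product of the prime factors of `n` greater than `w` -/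
def rbig (w n : ℕ) : ℕ := ∏ p ∈ n.primeFactors.filter (fun p => w < p), p

/-- the number of the choices for which the property `E` holds -/
noncomputable def cnt (b : ℕ) (K r N : Fin 2 → ℕ) (f : Fin 2 → ℕ → ℕ) (E : (Fin 2 → ℕ) → Prop) : ℝ := by
  classical
  exact (((Fintype.piFinset (fun l => powersetCard (r l) (range (K l)))).filter
    (fun S => E (fun l => change b (K l) (N l) (f l) (S l)))).card : ℝ)

/-- the number of all choices -/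
noncomputable def tot (K r : Fin 2 → ℕ) : ℝ := ∏ l, ((K l).choose (r l) : ℝ)

/-- the assumptions on the family, `y` is the level -/
def Fam (b : ℕ) (c : ℝ) (y : ℕ) (K r N : Fin 2 → ℕ) (f : Fin 2 → ℕ → ℕ) : Prop :=
  (∀ l, 2 * r l ≤ K l) ∧ (∀ l, (y : ℝ) ≤ Real.exp (c * r l)) ∧ (∀ l, N l < b ^ K l) ∧
    (∀ l j, f l j < b ∧ f l j ≠ digit b j (N l))

/-! ## counting -/

/-- residue classes modulo `q` -/
def S_CNT : Prop := ∀ (b : ℕ) (ε A : ℝ), 2 ≤ b → 0 < ε → 0 < A → ∃ c : ℝ, 0 < c ∧ ∃ y₀ : ℕ,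
  ∀ (K r N : Fin 2 → ℕ) (f : Fin 2 → ℕ → ℕ) (y : ℕ), y₀ ≤ y → Fam b c y K r N f →
  ∀ q : ℕ, 1 ≤ q → q ≤ y → (∀ p : ℕ, p.Prime → p ∣ q → b * b < p) →
  ∀ Z : Finset (Fin 2 → ℕ), Z ⊆ box 2 q →
    cnt b K r N f (fun m => (fun i => m i % q) ∈ Z) ≤ ((Z.card : ℝ) / (q : ℝ) ^ 2 * (y : ℝ) ^ ε + (y : ℝ) ^ (-A)) * tot K r

/-- a binary form modulo a prime -/
def S_CUB : Prop := ∀ (q : ℕ) (α β : ℤ), q.Prime → (¬ (q : ℤ) ∣ α ∨ ¬ (q : ℤ) ∣ β) →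
  ((box 2 q).filter (fun m : Fin 2 → ℕ => (q : ℤ) ∣ α * (m 1 : ℤ) ^ 3 + β * (m 0 : ℤ) ^ 2)).card ≤ 3 * q

/-- few members have an invariant with small denominator -/
def S_VAL : Prop := ∀ b : ℕ, 2 ≤ b → ∃ c : ℝ, 0 < c ∧ ∃ y₀ : ℕ,
  ∀ (K r N : Fin 2 → ℕ) (f : Fin 2 → ℕ → ℕ) (y : ℕ), y₀ ≤ y → Fam b c y K r N f →
    cnt b K r N f (fun m => (dj m : ℝ) < (y : ℝ) ^ (1 / 8 : ℝ)) ≤ (y : ℝ) ^ (-(1 / 2 : ℝ)) * tot K r

/-- square roots modulo `d` -/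
def S_SQ : Prop := ∀ (d : ℕ) (u : ℤ), 1 ≤ d → Odd d →
  ((((range d).filter (fun v : ℕ => (d : ℤ) ∣ (v : ℤ) ^ 2 - u)).card : ℕ) : ℝ) ≤ 2 ^ d.primeFactors.card * Real.sqrt d

/-- the number of the pairs modulo `d` for which the discriminant is divisible by `d` -/
def S_SOL : Prop := ∀ ε : ℝ, 0 < ε → ∃ C : ℝ, 0 ≤ C ∧ ∀ d : ℕ, 1 ≤ d → Nat.Coprime d 6 →
  ((((box 2 d).filter (fun m : Fin 2 → ℕ => d ∣ de m)).card : ℕ) : ℝ) ≤ C * (d : ℝ) ^ (3 / 2 + ε)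

/-- the number of the integers with small radical -/
def S_RADC : Prop := ∀ ε : ℝ, 0 < ε → ∃ C : ℝ, 0 ≤ C ∧ ∀ (X : ℕ) (R : ℝ), 1 ≤ X → 1 ≤ R →
  ((((Icc 1 X).filter (fun d : ℕ => ((∏ p ∈ d.primeFactors, p : ℕ) : ℝ) ≤ R)).card : ℕ) : ℝ) ≤ C * R * (X : ℝ) ^ ε

/-- a divisor of prescribed size -/
def S_DIV : Prop := ∀ (n : ℕ) (X P : ℝ), 1 ≤ n → 1 ≤ X → 1 ≤ P → X ≤ n → (∀ p ∈ n.primeFactors, (p : ℝ) ≤ P) →
  ∃ d : ℕ, d ∣ n ∧ X ≤ d ∧ (d : ℝ) ≤ X * P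

/-- few members have a denominator with large part but small radical of the part -/
def S_MS : Prop := ∀ b : ℕ, 2 ≤ b → ∃ c : ℝ, 0 < c ∧ ∃ y₀ : ℕ,
  ∀ (K r N : Fin 2 → ℕ) (f : Fin 2 → ℕ → ℕ) (y : ℕ), y₀ ≤ y → Fam b c y K r N f →
    cnt b K r N f (fun m => de m ≠ 0 ∧ (y : ℝ) < big (b * b) (dj m) ∧ (rbig (b * b) (dj m) : ℝ) < (y : ℝ) ^ (1 / 20 : ℝ)) ≤
      (y : ℝ) ^ (-(1 / 10 : ℝ)) * tot K r

end Pool.Agent.NH22.DG
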