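import Pool.Agent.NH22.DG.Stm
import Pool.Agent.Y725.LS.Final

/-!
# Project DG: the statements on places
-/

set_option autoImplicit false

namespace Pool.Agent.NH22.DG

open Finset NumberField IsDedekindDomain
open Pool.Agent.TH910.LS Pool.Agent.Y725.LS

/-! ## places -/

/-- the poles of the invariant over `ℚ` -/
def S_PA : Prop := ∀ (w : ℕ) (m : Fin 2 → ℕ), de m ≠ 0 → ∀ S : Finset (FinitePlace ℚ),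
  (∀ v ∈ S, v.val ((w.factorial : ℕ) : ℚ) = 1 ∧ 1 < v.val (jinv (((m 1 : ℕ) : 𝓞 ℚ) : ℚ) (((m 0 : ℕ) : 𝓞 ℚ) : ℚ))) →
  ∑ v ∈ S, Real.log (v.val (jinv (((m 1 : ℕ) : 𝓞 ℚ) : ℚ) (((m 0 : ℕ) : 𝓞 ℚ) : ℚ))) ≤ Real.log (big w (dj m))

/-- the bad places above -/
def S_PB : Prop := ∀ (w : ℕ) (m : Fin 2 → ℕ), de m ≠ 0 →
  ∀ (L : Type) [Field L] [NumberField L] [IsGalois ℚ L],
  ∃ F : Finset (FinitePlace L), (∀ v ∈ F, BadAt ((m 1 : ℕ) : 𝓞 ℚ) ((m 0 : ℕ) : 𝓞 ℚ) v) ∧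
    Real.log (rbig w (dj m)) ≤ ∑ v ∈ F, Real.log (Ideal.absNorm v.maximalIdeal.asIdeal)

/-- the height of the invariant -/
def S_HT : Prop := ∀ m : Fin 2 → ℕ, de m ≠ 0 →
  Real.log (dj m) ≤ absH (jinv (((m 1 : ℕ) : 𝓞 ℚ) : ℚ) (((m 0 : ℕ) : 𝓞 ℚ) : ℚ)) ∧
  Real.log (dj m) ≤ Height.logHeight₁ (jinv (((m 1 : ℕ) : 𝓞 ℚ) : ℚ) (((m 0 : ℕ) : 𝓞 ℚ) : ℚ)) ∧
  absH (((m 1 : ℕ) : 𝓞 ℚ) : ℚ) ≤ Real.log (1 + m 1) ∧ absH (((m 0 : ℕ) : 𝓞 ℚ) : ℚ) ≤ Real.log (1 + m 0)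

/-- the condition of the starting library -/
def S_SZ : Prop := ∀ (w : ℕ) (m : Fin 2 → ℕ) (σ δ : ℝ), de m ≠ 0 → 0 ≤ σ → 0 ≤ δ →
  Real.log (big w (dj m)) ≤ σ * Real.log (rbig w (dj m)) + δ * Real.log (dj m) →
  ∀ (L : Type) [Field L] [NumberField L] [IsGalois ℚ L],
    SzpiroLe σ δ 0 w.factorial ((m 1 : ℕ) : 𝓞 ℚ) ((m 0 : ℕ) : 𝓞 ℚ) L

end Pool.Agent.NH22.DG
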